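import Mathlib
import Pool.Agent.Lib.MP_f9aece_nt_h97.OffF4

/-!
Sums over integers without prime factors in `(p0, e^Y]`.
-/

set_option autoImplicit false

namespace Pool.Agent.Lib.MP_f9aece_nt_h85

open MeasureTheory Set Filter Topology Complex
open Pool.Agent.Lib.MP_f9aece_nt
open Pool.Agent.Lib.MP_f9aece_nt_h97

/-- the primes of the scales -/
noncomputable def Pst (p0 : ℕ) (Y : ℝ) : Finset ℕ := (Finset.Ioc p0 ⌊Real.exp Y⌋₊).filter Nat.Prime

/-- the complementary set -/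
def Rst (p0 : ℕ) (Y : ℝ) : Set ℕ := {p | ¬ (p0 < p ∧ p ≤ ⌊Real.exp Y⌋₊)}

open Classical in
/-- integers up to `z` without prime factor in `(p0, e^Y]` -/
noncomputable def rset (p0 : ℕ) (Y z : ℝ) : Finset ℕ :=
  (Finset.Icc 1 ⌊z⌋₊).filter (fun n => n ∈ Smo (Rst p0 Y))

/-- the corresponding polynomial -/
noncomputable def rz (p0 : ℕ) (Y z : ℝ) : DP := ∑ n ∈ rset p0 Y z, MonoidAlgebra.single n 1

/-- the sum of reciprocals -/
noncomputable def SR (p0 : ℕ) (Y z : ℝ) : ℝ := ∑ n ∈ rset p0 Y z, (n : ℝ)⁻¹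

variable {p0 : ℕ} {Y z : ℝ}

lemma mem_rset {n : ℕ} : n ∈ rset p0 Y z ↔ (1 ≤ n ∧ n ≤ ⌊z⌋₊) ∧ n ∈ Smo (Rst p0 Y) := by
  classical
  unfold rset
  rw [Finset.mem_filter, Finset.mem_Icc]

lemma Pst_prime : ∀ p ∈ Pst p0 Y, p.Prime := fun _ hp => (Finset.mem_filter.mp hp).2

lemma disj_Rst : Disjoint (Rst p0 Y) (Pst p0 Y : Set ℕ) := by
  rw [Set.disjoint_left]
  intro p hp hpj
  apply hp
  have h := Finset.mem_Ioc.mp (Finset.mem_filter.mp (Finset.mem_coe.mp hpj)).1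
  exact h

lemma SR_nonneg : 0 ≤ SR p0 Y z := Finset.sum_nonneg fun n _ => by positivity

lemma cone_rz : Cone {n | n ∈ Smo (Rst p0 Y) ∧ 1 ≤ n ∧ n ≤ ⌊z⌋₊} (rz p0 Y z) := by
  unfold rz
  refine Cone.sum _ fun n hn => Cone.single ?_ zero_le_one
  rw [mem_rset] at hn
  exact ⟨hn.2, hn.1⟩

lemma sup_rz : Sup (Smo (Rst p0 Y)) (rz p0 Y z) :=
  (sup_of_cone cone_rz).mono fun _ hn => hn.1

lemma pair_rz (φ : ℕ → ℝ) : pair φ (rz p0 Y z) = ∑ n ∈ rset p0 Y z, φ n := by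
  unfold rz
  rw [pair_sum]
  simp

lemma BK_rz_rz (K : ℕ → ℕ → ℝ) :
    BK K (rz p0 Y z) (rz p0 Y z) = ∑ a ∈ rset p0 Y z, ∑ b ∈ rset p0 Y z, K a b := by
  unfold BK
  rw [pair_rz]
  refine Finset.sum_congr rfl fun a _ => ?_
  rw [pair_rz]

lemma coeff_rz (n : ℕ) : (rz p0 Y z).coeff n = if n ∈ rset p0 Y z then 1 else 0 := by
  rw [coeff_eq_pair, pair_rz]
  simp

lemma BK_K1_rz : BK K1 (rz p0 Y z) (rz p0 Y z) = SR p0 Y z := by
  rw [BK_rz_rz]
  unfold SR
  refine Finset.sum_congr rfl fun a ha => ?_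
  rw [Finset.sum_eq_single a]
  · simp [K1]
  · intro b _ hb
    rw [K1, if_neg (Ne.symm hb)]
  · intro h; exact absurd ha h

lemma BK_one_rz (K : ℕ → ℕ → ℝ) : BK K 1 (rz p0 Y z) = ∑ n ∈ rset p0 Y z, K 1 n := by
  unfold BK
  rw [MonoidAlgebra.one_def, pair_single, one_mul, pair_rz]

lemma BK_Kcs_one_rz : BK (Kcs 1) 1 (rz p0 Y z) = SR p0 Y z := by
  rw [BK_one_rz]
  unfold SR
  refine Finset.sum_congr rfl fun a _ => ?_
  unfold Kcs
  rw [if_pos (one_dvd a), Real.rpow_neg_one]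

/-! ### Euler products -/

/-- sums of reciprocals over integers composed of given primes -/
lemma sum_smo_le (P : Finset ℕ) (B : Finset ℕ) (hB : ∀ b ∈ B, b ∈ Smo (P : Set ℕ)) :
    ∑ b ∈ B, (b : ℝ)⁻¹ ≤ ∏ p ∈ P.filter Nat.Prime, (1 - (p : ℝ)⁻¹)⁻¹ := by
  classical
  let f : ℕ →* ℝ := { toFun := fun n => (n : ℝ)⁻¹, map_one' := by simp, map_mul' := fun m n => by push_cast; rw [mul_inv] }
  have hf : ∀ {p : ℕ}, p.Prime → ‖f p‖ < 1 := by
    intro p hp
    have h1 : (1 : ℝ) < p := by exact_mod_cast hp.one_lt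
    change ‖(p : ℝ)⁻¹‖ < 1
    rw [norm_inv, Real.norm_eq_abs, abs_of_pos (by linarith)]
    exact inv_lt_one_of_one_lt₀ h1
  obtain ⟨h1, h2⟩ := EulerProduct.summable_and_hasSum_factoredNumbers_prod_filter_prime_geometric hf P
  have hmem : ∀ b ∈ B, b ∈ Nat.factoredNumbers P := by
    intro b hb
    obtain ⟨h3, h4⟩ := hB b hb
    rw [Nat.mem_factoredNumbers]
    refine ⟨h3, fun p hp => ?_⟩
    exact Finset.mem_coe.mp (h4 p (Nat.prime_of_mem_primeFactorsList hp) (Nat.dvd_of_mem_primeFactorsList hp))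
  let g : B → Nat.factoredNumbers P := fun n => ⟨n.1, hmem n.1 n.2⟩
  have hg : Function.Injective g := by
    intro a b hab
    have := congrArg (fun x : Nat.factoredNumbers P => (x : ℕ)) hab
    exact Subtype.ext this
  have h6 := sum_le_hasSum (f := fun m : Nat.factoredNumbers P => f m)
    (Finset.univ.map ⟨g, hg⟩) (fun m _ => by
      change 0 ≤ ((m : ℕ) : ℝ)⁻¹
      positivity) h2
  rw [Finset.sum_map] at h6
  calc ∑ n ∈ B, (n : ℝ)⁻¹ = ∑ n : B, f (g n) := by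
        rw [← Finset.sum_coe_sort B (fun n => (n : ℝ)⁻¹)]
        rfl
    _ ≤ _ := h6

/-- factorisation of an integer along a partition of the primes -/
lemma exists_factor (A : Set ℕ) {n : ℕ} (hn : n ≠ 0) :
    ∃ x : ℕ × ℕ, x.1 ∈ Smo Aᶜ ∧ x.2 ∈ Smo A ∧ x.1 * x.2 = n := by
  induction n using Nat.recOnMul with
  | zero => exact absurd rfl hn
  | one => exact ⟨(1, 1), one_mem_Smo _, one_mem_Smo _, rfl⟩
  | prime p hp =>
    by_cases h : p ∈ A
    · exact ⟨(1, p), one_mem_Smo _, prime_mem_Smo hp h, one_mul _⟩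
    · exact ⟨(p, 1), prime_mem_Smo hp h, one_mem_Smo _, mul_one _⟩
  | mul a b iha ihb =>
    obtain ⟨x, hx1, hx2, hx3⟩ := iha (left_ne_zero_of_mul hn)
    obtain ⟨y, hy1, hy2, hy3⟩ := ihb (right_ne_zero_of_mul hn)
    refine ⟨(x.1 * y.1, x.2 * y.2), mul_mem_Smo hx1 hy1, mul_mem_Smo hx2 hy2, ?_⟩
    rw [← hx3, ← hy3]
    ring

/-- lower bound for the rough sum -/
theorem log_le_SR (hz : 1 ≤ z) :
    Real.log z ≤ SR p0 Y z * ∏ p ∈ Pst p0 Y, (1 - (p : ℝ)⁻¹)⁻¹ := by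
  classical
  set A : Set ℕ := {p | p0 < p ∧ p ≤ ⌊Real.exp Y⌋₊} with hA
  have hAc : Aᶜ = Rst p0 Y := rfl
  have hex : ∀ n : ℕ, ∃ x : ℕ × ℕ, n ≠ 0 → x.1 ∈ Smo Aᶜ ∧ x.2 ∈ Smo A ∧ x.1 * x.2 = n := by
    intro n
    rcases eq_or_ne n 0 with h | h
    · exact ⟨(0, 0), fun h' => absurd h h'⟩
    · obtain ⟨x, hx⟩ := exists_factor A h
      exact ⟨x, fun _ => hx⟩
  choose F hF using hex
  set N := ⌊z⌋₊ with hN
  have hN1 : 1 ≤ N := Nat.le_floor (by simpa using hz)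
  set B := (Finset.Icc 1 N).image (fun n => (F n).2) with hB
  have h1 : ∑ n ∈ Finset.Icc 1 N, (n : ℝ)⁻¹
      ≤ ∑ x ∈ rset p0 Y z ×ˢ B, ((x.1 : ℝ)⁻¹ * (x.2 : ℝ)⁻¹) := by
    have hmap : ∀ n ∈ Finset.Icc 1 N, F n ∈ rset p0 Y z ×ˢ B := by
      intro n hn
      obtain ⟨hn1, hn2⟩ := Finset.mem_Icc.mp hn
      obtain ⟨h1, h2, h3⟩ := hF n (by omega)
      rw [Finset.mem_product]
      refine ⟨?_, Finset.mem_image_of_mem _ hn⟩
      rw [mem_rset]
      rw [hAc] at h1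
      refine ⟨⟨Smo_pos h1, ?_⟩, h1⟩
      have : (F n).1 ≤ n := Nat.le_of_dvd (by omega) (Dvd.intro _ h3)
      omega
    have hinj : Set.InjOn F (Finset.Icc 1 N : Finset ℕ) := by
      intro n hn n' hn' h
      rw [Finset.mem_coe, Finset.mem_Icc] at hn hn'
      rw [← (hF n (by omega)).2.2, ← (hF n' (by omega)).2.2, h]
    calc ∑ n ∈ Finset.Icc 1 N, (n : ℝ)⁻¹
        = ∑ n ∈ Finset.Icc 1 N, (((F n).1 : ℝ)⁻¹ * ((F n).2 : ℝ)⁻¹) := by
          refine Finset.sum_congr rfl fun n hn => ?_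
          rw [Finset.mem_Icc] at hn
          have h3 := (hF n (by omega)).2.2
          rw [← mul_inv]
          congr 1
          exact_mod_cast h3.symm
      _ = ∑ x ∈ (Finset.Icc 1 N).image F, ((x.1 : ℝ)⁻¹ * (x.2 : ℝ)⁻¹) := by
          rw [Finset.sum_image hinj]
      _ ≤ _ := by
          refine Finset.sum_le_sum_of_subset_of_nonneg ?_ fun x _ _ => by positivity
          intro x hx
          obtain ⟨n, hn, rfl⟩ := Finset.mem_image.mp hx
          exact hmap n hn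
  have h2 : ∑ x ∈ rset p0 Y z ×ˢ B, ((x.1 : ℝ)⁻¹ * (x.2 : ℝ)⁻¹) = SR p0 Y z * ∑ b ∈ B, (b : ℝ)⁻¹ := by
    rw [Finset.sum_product, SR, Finset.sum_mul_sum]
  have h3 : ∑ b ∈ B, (b : ℝ)⁻¹ ≤ ∏ p ∈ Pst p0 Y, (1 - (p : ℝ)⁻¹)⁻¹ := by
    refine sum_smo_le (Finset.Ioc p0 ⌊Real.exp Y⌋₊) B fun b hb => ?_
    obtain ⟨n, hn, rfl⟩ := Finset.mem_image.mp hb
    obtain ⟨hn1, hn2⟩ := Finset.mem_Icc.mp hn
    have := (hF n (by omega)).2.1
    refine Smo_mono ?_ this
    intro p hp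
    rw [Finset.mem_coe, Finset.mem_Ioc]
    exact hp
  have h4 : Real.log z ≤ ∑ n ∈ Finset.Icc 1 N, (n : ℝ)⁻¹ := by
    have h5 := log_add_one_le_harmonic N
    have h6 : (harmonic N : ℝ) = ∑ n ∈ Finset.Icc 1 N, (n : ℝ)⁻¹ := by
      rw [harmonic_eq_sum_Icc]; push_cast; rfl
    rw [h6] at h5
    refine le_trans ?_ h5
    apply Real.log_le_log (by linarith)
    have := Nat.lt_floor_add_one z
    rw [← hN] at this
    push_cast
    exact this.le
  calc Real.log z ≤ SR p0 Y z * ∑ b ∈ B, (b : ℝ)⁻¹ := by linarith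
    _ ≤ _ := mul_le_mul_of_nonneg_left h3 SR_nonneg

/-- bound of the Euler product over the primes in `(e^Y, e^(4^n Y)]` -/
lemma sum_inv_range_le (hY : 0 < Y) (n : ℕ) (s : Finset ℕ)
    (hs : ∀ p ∈ s, p.Prime ∧ Y < Real.log p ∧ Real.log p ≤ 4 ^ n * Y) :
    ∑ p ∈ s, (p : ℝ)⁻¹ ≤ 12 * n := by
  classical
  induction n generalizing s with
  | zero =>
    have : s = ∅ := by
      rw [Finset.eq_empty_iff_forall_notMem]
      intro p hp
      obtain ⟨_, h1, h2⟩ := hs p hp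
      rw [pow_zero, one_mul] at h2
      linarith
    rw [this]; simp
  | succ n ih =>
    rw [← Finset.sum_filter_add_sum_filter_not s (fun p => Real.log p ≤ 4 ^ n * Y)]
    have h1 := ih (s.filter (fun p => Real.log p ≤ 4 ^ n * Y)) fun p hp => by
      rw [Finset.mem_filter] at hp
      obtain ⟨h1, h2, h3⟩ := hs p hp.1
      exact ⟨h1, h2, hp.2⟩
    have h2 := sum_inv_scale_le (y := 4 ^ (n + 1) * Y) (by positivity)
      (s.filter (fun p => ¬ Real.log p ≤ 4 ^ n * Y)) fun p hp => by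
      rw [Finset.mem_filter, not_le] at hp
      obtain ⟨h1, h2, h3⟩ := hs p hp.1
      refine ⟨h1, ?_, h3⟩
      have : (4 : ℝ) ^ (n + 1) * Y / 4 = 4 ^ n * Y := by rw [pow_succ]; ring
      rw [this]
      exact hp.2
    push_cast
    linarith

lemma inv_one_sub_le {p : ℕ} (hp : p.Prime) : (1 - (p : ℝ)⁻¹)⁻¹ ≤ Real.exp (2 * (p : ℝ)⁻¹) := by
  have hp2 : (2 : ℝ) ≤ p := by exact_mod_cast hp.two_le
  set q := (p : ℝ)⁻¹ with hq
  have hq0 : 0 < q := by positivity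
  have hq2 : q ≤ 1 / 2 := by
    rw [hq, inv_le_comm₀ (by linarith) (by norm_num)]
    norm_num
    exact hp.two_le
  have h1 : 1 + 2 * q ≤ Real.exp (2 * q) := by
    have := Real.add_one_le_exp (2 * q)
    linarith
  refine le_trans ?_ h1
  rw [inv_le_iff_one_le_mul₀ (by linarith)]
  nlinarith

lemma one_le_inv_one_sub {p : ℕ} (hp : p.Prime) : 1 ≤ (1 - (p : ℝ)⁻¹)⁻¹ := by
  have hp2 : (2 : ℝ) ≤ p := by exact_mod_cast hp.two_le
  have hq0 : 0 < (p : ℝ)⁻¹ := by positivity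
  have hq2 : (p : ℝ)⁻¹ ≤ 1 / 2 := by
    rw [inv_le_comm₀ (by linarith) (by norm_num)]
    norm_num
    exact hp.two_le
  rw [one_le_inv₀ (by linarith)]
  linarith

lemma inv_one_sub_le_two {p : ℕ} (hp : p.Prime) : (1 - (p : ℝ)⁻¹)⁻¹ ≤ 2 := by
  have hp2 : (2 : ℝ) ≤ p := by exact_mod_cast hp.two_le
  have hq2 : (p : ℝ)⁻¹ ≤ 1 / 2 := by
    rw [inv_le_comm₀ (by linarith) (by norm_num)]
    norm_num
    exact hp.two_le
  rw [inv_le_comm₀ (by linarith) (by norm_num)]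
  linarith

/-- the constant in the upper bounds for rough sums, of the form `C(p0) m ^ C` -/
noncomputable def Krz (p0 m : ℕ) : ℝ := 2 ^ p0 * Real.exp (24 * (Nat.clog 4 (160 * m) : ℕ))

lemma Krz_pos (p0 m : ℕ) : 0 < Krz p0 m := by unfold Krz; positivity

/-- the constant is polynomial in `m` -/
lemma Krz_le (p0 : ℕ) {m : ℕ} (hm : 1 ≤ m) : Krz p0 m ≤ 2 ^ p0 * (640 * (m : ℝ)) ^ 24 := by
  unfold Krz
  have h1 : (4 : ℝ) ^ (Nat.clog 4 (160 * m)) ≤ 640 * m := by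
    have h2 : 1 < 160 * m := by omega
    have h3 := Nat.pow_pred_clog_lt_self (b := 4) (by norm_num) h2
    have h4 : 0 < Nat.clog 4 (160 * m) := Nat.clog_pos (by norm_num) (by omega)
    obtain ⟨c, hc⟩ : ∃ c, Nat.clog 4 (160 * m) = c + 1 := ⟨Nat.clog 4 (160 * m) - 1, by omega⟩
    rw [hc] at h3 ⊢
    simp only [Nat.pred_eq_sub_one, Nat.add_sub_cancel] at h3
    have h5 : ((4 ^ c : ℕ) : ℝ) ≤ ((160 * m : ℕ) : ℝ) := by exact_mod_cast h3.le
    push_cast at h5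
    rw [pow_succ]
    linarith
  have h2 : Real.exp 1 ≤ 4 := by
    have := Real.exp_one_lt_d9
    linarith
  have h3 : Real.exp (24 * ((Nat.clog 4 (160 * m) : ℕ) : ℝ)) ≤ (640 * (m : ℝ)) ^ 24 := by
    calc Real.exp (24 * ((Nat.clog 4 (160 * m) : ℕ) : ℝ))
        = (Real.exp 1 ^ (Nat.clog 4 (160 * m))) ^ 24 := by
          rw [← Real.exp_nat_mul, ← Real.exp_nat_mul]
          congr 1
          push_cast
          ring
      _ ≤ (4 ^ (Nat.clog 4 (160 * m))) ^ 24 := by gcongr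
      _ ≤ _ := by gcongr
  gcongr

/-- upper bound for the rough sum -/
theorem SR_le {m : ℕ} (hY : 0 < Y) (hz : z ≤ Real.exp (160 * m * Y)) : SR p0 Y z ≤ Krz p0 m := by
  classical
  set P : Finset ℕ := (Finset.Icc 1 ⌊z⌋₊).filter (fun p => p ∈ Rst p0 Y) with hP
  have h1 : SR p0 Y z ≤ ∏ p ∈ P.filter Nat.Prime, (1 - (p : ℝ)⁻¹)⁻¹ := by
    refine sum_smo_le P _ fun b hb => ?_
    rw [mem_rset] at hb
    refine ⟨hb.2.1, fun p hp hpb => ?_⟩
    rw [Finset.mem_coe, hP, Finset.mem_filter, Finset.mem_Icc]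
    have := Nat.le_of_dvd (by omega) hpb
    exact ⟨⟨hp.one_le, by omega⟩, hb.2.2 p hp hpb⟩
  refine h1.trans ?_
  rw [← Finset.prod_filter_mul_prod_filter_not (P.filter Nat.Prime) (fun p => p ≤ p0)]
  unfold Krz
  have hpr : ∀ p ∈ P.filter Nat.Prime, p.Prime := fun p hp => (Finset.mem_filter.mp hp).2
  have hprod0 : 0 ≤ ∏ p ∈ (P.filter Nat.Prime).filter (fun p => ¬ p ≤ p0), (1 - (p : ℝ)⁻¹)⁻¹ :=
    Finset.prod_nonneg fun p hp =>
      zero_le_one.trans (one_le_inv_one_sub (hpr p (Finset.mem_filter.mp hp).1))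
  refine mul_le_mul ?_ ?_ hprod0 (by positivity)
  · calc ∏ p ∈ (P.filter Nat.Prime).filter (fun p => p ≤ p0), (1 - (p : ℝ)⁻¹)⁻¹
        ≤ ∏ p ∈ (P.filter Nat.Prime).filter (fun p => p ≤ p0), (2 : ℝ) := by
          refine Finset.prod_le_prod (fun p hp => ?_) fun p hp => ?_
          · exact zero_le_one.trans (one_le_inv_one_sub (hpr p (Finset.mem_filter.mp hp).1))
          · exact inv_one_sub_le_two (hpr p (Finset.mem_filter.mp hp).1)
      _ = 2 ^ ((P.filter Nat.Prime).filter (fun p => p ≤ p0)).card := by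
          rw [Finset.prod_const]
      _ ≤ 2 ^ p0 := by
          apply pow_le_pow_right₀ (by norm_num)
          have hsub : (P.filter Nat.Prime).filter (fun p => p ≤ p0) ⊆ Finset.Icc 1 p0 := by
            intro p hp
            rw [Finset.mem_filter] at hp
            rw [Finset.mem_Icc]
            exact ⟨(hpr p hp.1).one_le, hp.2⟩
          calc _ ≤ (Finset.Icc 1 p0).card := Finset.card_le_card hsub
            _ = p0 := by simp
  · calc ∏ p ∈ (P.filter Nat.Prime).filter (fun p => ¬ p ≤ p0), (1 - (p : ℝ)⁻¹)⁻¹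
        ≤ ∏ p ∈ (P.filter Nat.Prime).filter (fun p => ¬ p ≤ p0), Real.exp (2 * (p : ℝ)⁻¹) := by
          refine Finset.prod_le_prod (fun p hp => ?_) fun p hp => ?_
          · exact zero_le_one.trans (one_le_inv_one_sub (hpr p (Finset.mem_filter.mp hp).1))
          · exact inv_one_sub_le (hpr p (Finset.mem_filter.mp hp).1)
      _ = Real.exp (2 * ∑ p ∈ (P.filter Nat.Prime).filter (fun p => ¬ p ≤ p0), (p : ℝ)⁻¹) := by
          rw [← Real.exp_sum, Finset.mul_sum]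
      _ ≤ _ := by
          apply Real.exp_le_exp.mpr
          have h2 : ∑ p ∈ (P.filter Nat.Prime).filter (fun p => ¬ p ≤ p0), (p : ℝ)⁻¹
              ≤ 12 * (Nat.clog 4 (160 * m) : ℕ) := by
            refine sum_inv_range_le hY _ _ fun p hp => ?_
            rw [Finset.mem_filter, Finset.mem_filter, hP, Finset.mem_filter, Finset.mem_Icc] at hp
            obtain ⟨⟨⟨⟨hp1, hp2⟩, hp3⟩, hp4⟩, hp5⟩ := hp
            have hp0 : (0 : ℝ) < p := by exact_mod_cast hp1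
            refine ⟨hp4, ?_, ?_⟩
            · have h3 : ¬ p ≤ ⌊Real.exp Y⌋₊ := fun h => hp3 ⟨by omega, h⟩
              rw [Nat.le_floor_iff (Real.exp_pos Y).le, not_le] at h3
              rwa [Real.lt_log_iff_exp_lt hp0]
            · have hz0 : 0 ≤ z := by
                by_contra hc
                push Not at hc
                rw [Nat.floor_of_nonpos hc.le] at hp2
                omega
              have h4 : (p : ℝ) ≤ z := (Nat.le_floor_iff hz0).mp hp2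
              have h5 : Real.log p ≤ 160 * m * Y := by
                rw [Real.log_le_iff_le_exp hp0]
                exact h4.trans hz
              have h6 : (160 * m : ℝ) ≤ 4 ^ (Nat.clog 4 (160 * m)) := by
                have := Nat.le_pow_clog (b := 4) (by norm_num) (160 * m)
                exact_mod_cast this
              refine h5.trans ?_
              gcongr
          linarith

/-! ### the quadratic forms -/

theorem BK_K2_rz_nonneg : 0 ≤ BK K2 (rz p0 Y z) (rz p0 Y z) :=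
  BK_nonneg cone_rz cone_rz K2_nonneg

theorem BK_K2_rz : BK K2 (rz p0 Y z) (rz p0 Y z) ≤ SR p0 Y z ^ 3 := by
  classical
  rw [BK_rz_rz]
  set R := rset p0 Y z with hR
  have hdiv : ∀ a ∈ R, ∀ d, d ∣ a → d ∈ R := by
    intro a ha d hd
    rw [hR, mem_rset] at ha ⊢
    have ha0 : 0 < a := by omega
    have hd0 : 0 < d := Nat.pos_of_dvd_of_pos hd ha0
    have hda := Nat.le_of_dvd ha0 hd
    refine ⟨⟨hd0, by omega⟩, hd0.ne', fun p hp hpd => ha.2.2 p hp (hpd.trans hd)⟩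
  have h1 : ∀ a ∈ R, ∀ b ∈ R, K2 a b
      = ∑ d ∈ R, (if d ∣ a ∧ d ∣ b then (Nat.totient d : ℝ) else 0) * ((a : ℝ)⁻¹ * (b : ℝ)⁻¹) := by
    intro a ha b hb
    rw [← Finset.sum_mul]
    have h2 : ∑ d ∈ R, (if d ∣ a ∧ d ∣ b then (Nat.totient d : ℝ) else 0) = (Nat.gcd a b : ℝ) := by
      rw [← Finset.sum_filter]
      have e : R.filter (fun d => d ∣ a ∧ d ∣ b) = (Nat.gcd a b).divisors := by
        ext d
        rw [Finset.mem_filter, Nat.mem_divisors, Nat.dvd_gcd_iff]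
        have ha1 : 0 < a := by
          rw [hR, mem_rset] at ha; omega
        constructor
        · rintro ⟨_, h⟩
          exact ⟨h, (Nat.gcd_pos_of_pos_left b ha1).ne'⟩
        · rintro ⟨h, _⟩
          exact ⟨hdiv a ha d h.1, h⟩
      rw [e]
      have := Nat.sum_totient (Nat.gcd a b)
      exact_mod_cast this
    rw [h2]
    unfold K2
    rw [← mul_inv, div_eq_mul_inv]
  have h3 : ∑ a ∈ R, ∑ b ∈ R, K2 a b
      = ∑ d ∈ R, (Nat.totient d : ℝ) * (∑ a ∈ R, if d ∣ a then (a : ℝ)⁻¹ else 0) ^ 2 := by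
    rw [Finset.sum_congr rfl fun a ha => Finset.sum_congr rfl fun b hb => h1 a ha b hb]
    rw [Finset.sum_congr rfl fun a _ => Finset.sum_comm]
    rw [Finset.sum_comm]
    refine Finset.sum_congr rfl fun d _ => ?_
    rw [sq, Finset.sum_mul_sum, Finset.mul_sum]
    refine Finset.sum_congr rfl fun a _ => ?_
    rw [Finset.mul_sum]
    refine Finset.sum_congr rfl fun b _ => ?_
    by_cases ha : d ∣ a <;> by_cases hb : d ∣ b <;> simp [ha, hb]
  rw [h3]
  have h4 : ∀ d ∈ R, (∑ a ∈ R, if d ∣ a then (a : ℝ)⁻¹ else 0) ≤ (d : ℝ)⁻¹ * SR p0 Y z := by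
    intro d hd
    have hd0 : 0 < d := by
      rw [hR, mem_rset] at hd; omega
    rw [← Finset.sum_filter]
    unfold SR
    rw [Finset.mul_sum, ← hR]
    have hmap : ∀ a ∈ R.filter (fun a => d ∣ a), a / d ∈ R := by
      intro a ha
      rw [Finset.mem_filter] at ha
      exact hdiv a ha.1 _ (Nat.div_dvd_of_dvd ha.2)
    have hinj : Set.InjOn (fun a => a / d) (R.filter (fun a => d ∣ a) : Finset ℕ) := by
      intro a ha b hb hab
      rw [Finset.mem_coe, Finset.mem_filter] at ha hb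
      simp only at hab
      rw [← Nat.mul_div_cancel' ha.2, ← Nat.mul_div_cancel' hb.2, hab]
    calc ∑ a ∈ R.filter (fun a => d ∣ a), (a : ℝ)⁻¹
        = ∑ a ∈ R.filter (fun a => d ∣ a), (d : ℝ)⁻¹ * ((a / d : ℕ) : ℝ)⁻¹ := by
          refine Finset.sum_congr rfl fun a ha => ?_
          rw [Finset.mem_filter] at ha
          rw [← mul_inv]
          congr 1
          have := Nat.mul_div_cancel' ha.2
          exact_mod_cast this.symm
      _ = ∑ x ∈ (R.filter (fun a => d ∣ a)).image (fun a => a / d), (d : ℝ)⁻¹ * (x : ℝ)⁻¹ := by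
          rw [Finset.sum_image hinj]
      _ ≤ ∑ x ∈ R, (d : ℝ)⁻¹ * (x : ℝ)⁻¹ := by
          refine Finset.sum_le_sum_of_subset_of_nonneg ?_ fun x _ _ => by positivity
          intro x hx
          obtain ⟨a, ha, rfl⟩ := Finset.mem_image.mp hx
          exact hmap a ha
  calc ∑ d ∈ R, (Nat.totient d : ℝ) * (∑ a ∈ R, if d ∣ a then (a : ℝ)⁻¹ else 0) ^ 2
      ≤ ∑ d ∈ R, (d : ℝ) * ((d : ℝ)⁻¹ * SR p0 Y z) ^ 2 := by
        refine Finset.sum_le_sum fun d hd => ?_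
        have h5 : 0 ≤ ∑ a ∈ R, (if d ∣ a then (a : ℝ)⁻¹ else 0) :=
          Finset.sum_nonneg fun a _ => by positivity
        have h6 := h4 d hd
        have h7 : (Nat.totient d : ℝ) ≤ d := by exact_mod_cast Nat.totient_le d
        gcongr
    _ = ∑ d ∈ R, (d : ℝ)⁻¹ * SR p0 Y z ^ 2 := by
        refine Finset.sum_congr rfl fun d hd => ?_
        have hd0 : (d : ℝ) ≠ 0 := by
          rw [hR, mem_rset] at hd
          have : d ≠ 0 := by omega
          exact_mod_cast this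
        field_simp
    _ = SR p0 Y z ^ 3 := by
        rw [← Finset.sum_mul]
        have : ∑ d ∈ R, (d : ℝ)⁻¹ = SR p0 Y z := rfl
        rw [this]; ring

lemma Kg_nonneg (a b : ℕ) : 0 ≤ Kg a b := by
  unfold Kg
  exact mul_nonneg (K2_nonneg _ _) (Real.log_natCast_nonneg _)

lemma BK_KL_rz_nonneg : 0 ≤ BK KL (rz p0 Y z) (rz p0 Y z) := BK_nonneg cone_rz cone_rz KL_nonneg

lemma BK_Kg_rz_nonneg : 0 ≤ BK Kg (rz p0 Y z) (rz p0 Y z) := BK_nonneg cone_rz cone_rz Kg_nonneg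

lemma log_le_of_mem {n : ℕ} (hn : n ∈ rset p0 Y z) : Real.log n ≤ Real.log z := by
  rw [mem_rset] at hn
  have hz0 : 0 ≤ z := by
    by_contra hc
    push Not at hc
    rw [Nat.floor_of_nonpos hc.le] at hn
    omega
  apply Real.log_le_log (by exact_mod_cast hn.1.1)
  exact (Nat.le_floor_iff hz0).mp hn.1.2

theorem BK_KL_rz : BK KL (rz p0 Y z) (rz p0 Y z) ≤ 2 * Real.log z * SR p0 Y z ^ 3 := by
  rcases (rset p0 Y z).eq_empty_or_nonempty with he | ⟨n, hn⟩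
  · rw [BK_rz_rz, SR, he]; simp
  have hlz : 0 ≤ Real.log z := (Real.log_natCast_nonneg n).trans (log_le_of_mem hn)
  calc BK KL (rz p0 Y z) (rz p0 Y z)
      ≤ ∑ a ∈ rset p0 Y z, ∑ b ∈ rset p0 Y z, 2 * Real.log z * K2 a b := by
        rw [BK_rz_rz]
        refine Finset.sum_le_sum fun a ha => Finset.sum_le_sum fun b hb => ?_
        have ha' := mem_rset.mp ha
        have hb' := mem_rset.mp hb
        refine (KL_le ha'.1.1 hb'.1.1).trans ?_
        have h1 := log_le_of_mem ha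
        have h2 := log_le_of_mem hb
        have h3 := K2_nonneg a b
        nlinarith
    _ = 2 * Real.log z * BK K2 (rz p0 Y z) (rz p0 Y z) := by
        rw [BK_rz_rz, Finset.mul_sum]
        refine Finset.sum_congr rfl fun a _ => ?_
        rw [Finset.mul_sum]
    _ ≤ _ := by
        have := BK_K2_rz (p0 := p0) (Y := Y) (z := z)
        gcongr

theorem BK_Kg_rz : BK Kg (rz p0 Y z) (rz p0 Y z) ≤ Real.log z * SR p0 Y z ^ 3 := by
  rcases (rset p0 Y z).eq_empty_or_nonempty with he | ⟨n, hn⟩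
  · rw [BK_rz_rz, SR, he]; simp
  have hlz : 0 ≤ Real.log z := (Real.log_natCast_nonneg n).trans (log_le_of_mem hn)
  calc BK Kg (rz p0 Y z) (rz p0 Y z)
      ≤ ∑ a ∈ rset p0 Y z, ∑ b ∈ rset p0 Y z, Real.log z * K2 a b := by
        rw [BK_rz_rz]
        refine Finset.sum_le_sum fun a ha => Finset.sum_le_sum fun b hb => ?_
        have ha' := mem_rset.mp ha
        have h1 := log_le_of_mem ha
        have h3 := K2_nonneg a b
        unfold Kg
        have h4 : Real.log (Nat.gcd a b) ≤ Real.log a := by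
          apply Real.log_le_log
          · exact_mod_cast Nat.gcd_pos_of_pos_left b (by omega)
          · exact_mod_cast Nat.gcd_le_left b (by omega)
        rw [mul_comm]
        exact mul_le_mul_of_nonneg_right (h4.trans h1) h3
    _ = Real.log z * BK K2 (rz p0 Y z) (rz p0 Y z) := by
        rw [BK_rz_rz, Finset.mul_sum]
        refine Finset.sum_congr rfl fun a _ => ?_
        rw [Finset.mul_sum]
    _ ≤ _ := by
        have := BK_K2_rz (p0 := p0) (Y := Y) (z := z)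
        gcongr

/-! ### decoupling -/

lemma sc_subset_Pst (J : ℕ) : (⋃ j ∈ Finset.range J, (sc Y p0 j : Set ℕ)) ⊆ (Pst p0 Y : Set ℕ) := by
  intro p hp
  rw [Set.mem_iUnion₂] at hp
  obtain ⟨j, _, hj⟩ := hp
  have h := mem_sc.mp (Finset.mem_coe.mp hj)
  rw [Finset.mem_Icc] at h
  rw [Finset.mem_coe, Pst, Finset.mem_filter, Finset.mem_Ioc]
  exact ⟨⟨h.2.2.1, h.1.2⟩, h.2.1⟩

/-- the scale polynomials are supported on integers composed of the primes in `(p0, e^Y]` -/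
lemma sup_DD' (m : ℕ) (c : ℝ) (J : ℕ) : Sup (Smo (Pst p0 Y : Set ℕ)) (DD m p0 c Y J) :=
  (sup_DD c).mono (Smo_mono (sc_subset_Pst J))

theorem decouple {K : ℕ → ℕ → ℝ} (hK : MK K) {r r' f g : DP} (hr : Sup (Smo (Rst p0 Y)) r)
    (hr' : Sup (Smo (Rst p0 Y)) r') (hf : Sup (Smo (Pst p0 Y : Set ℕ)) f)
    (hg : Sup (Smo (Pst p0 Y : Set ℕ)) g) : BK K (r * f) (r' * g) = BK K r r' * BK K f g :=
  BK_mul_sup K hr hr' hf hg (hK.2.2.2 _ _ disj_Rst)

theorem decouple_K2 {r r' f g : DP} (hr : Sup (Smo (Rst p0 Y)) r)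
    (hr' : Sup (Smo (Rst p0 Y)) r') (hf : Sup (Smo (Pst p0 Y : Set ℕ)) f)
    (hg : Sup (Smo (Pst p0 Y : Set ℕ)) g) : BK K2 (r * f) (r' * g) = BK K2 r r' * BK K2 f g :=
  BK_mul_sup K2 hr hr' hf hg fun _ ha _ ha' _ hb _ hb' => K2_mul disj_Rst ha ha' hb hb'

theorem decouple_KL {r r' f g : DP} (hr : Sup (Smo (Rst p0 Y)) r)
    (hr' : Sup (Smo (Rst p0 Y)) r') (hf : Sup (Smo (Pst p0 Y : Set ℕ)) f)
    (hg : Sup (Smo (Pst p0 Y : Set ℕ)) g) :
    BK KL (r * f) (r' * g) = BK KL r r' * BK K2 f g + BK K2 r r' * BK KL f g :=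
  BK_mul_der K2 KL hr hr' hf hg fun _ ha _ ha' _ hb _ hb' => KL_mul disj_Rst ha ha' hb hb'

lemma Kg_mul {A B : Set ℕ} (hAB : Disjoint A B) {a a' b b' : ℕ} (ha : a ∈ Smo A) (ha' : a' ∈ Smo A)
    (hb : b ∈ Smo B) (hb' : b' ∈ Smo B) :
    Kg (a * b) (a' * b') = Kg a a' * K2 b b' + K2 a a' * Kg b b' := by
  have h1 : Nat.Coprime a' b' := coprime_of_Smo hAB ha' hb'
  have h2 : Nat.Coprime a' b := coprime_of_Smo hAB ha' hb
  have h3 : Nat.Coprime a b' := coprime_of_Smo hAB ha hb'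
  have e : Nat.gcd (a * b) (a' * b') = Nat.gcd a a' * Nat.gcd b b' := by
    rw [Nat.Coprime.gcd_mul _ h1, Nat.Coprime.gcd_mul_right_cancel a h2.symm,
      Nat.Coprime.gcd_mul_left_cancel b h3]
  have hg1 : 0 < Nat.gcd a a' := Nat.gcd_pos_of_pos_left a' (Nat.pos_of_ne_zero ha.1)
  have hg2 : 0 < Nat.gcd b b' := Nat.gcd_pos_of_pos_left b' (Nat.pos_of_ne_zero hb.1)
  unfold Kg
  rw [K2_mul hAB ha ha' hb hb', e]
  push_cast
  rw [Real.log_mul (by exact_mod_cast hg1.ne') (by exact_mod_cast hg2.ne')]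
  ring

theorem decouple_Kg {r r' f g : DP} (hr : Sup (Smo (Rst p0 Y)) r)
    (hr' : Sup (Smo (Rst p0 Y)) r') (hf : Sup (Smo (Pst p0 Y : Set ℕ)) f)
    (hg : Sup (Smo (Pst p0 Y : Set ℕ)) g) :
    BK Kg (r * f) (r' * g) = BK Kg r r' * BK K2 f g + BK K2 r r' * BK Kg f g :=
  BK_mul_der K2 Kg hr hr' hf hg fun _ ha _ ha' _ hb _ hb' => Kg_mul disj_Rst ha ha' hb hb'

/-- the diagonal kernel of the two notations -/
lemma K1s_one : K1s 1 = K1 := by
  funext a b
  unfold K1s K1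
  rw [Real.rpow_neg_one]

lemma K2s_one {a b : ℕ} (ha : a ≠ 0) (hb : b ≠ 0) : K2s 1 a b = K2 a b := by
  rw [K2_eq_inv_lcm ha hb, K2s, Real.rpow_neg_one]

end Pool.Agent.Lib.MP_f9aece_nt_h85
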