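import Mathlib
import Pool.Agent.Lib.MP_f9aece_nt_h97.TSM

/-!
Kernels with two-sided control of the transform, and a uniform upper bound for the Mellin
transform of the bump on the critical line.
-/

set_option autoImplicit false

namespace Pool.Agent.Lib.MP_f9aece_nt_h85

open MeasureTheory Set Filter Topology Complex FourierTransform
open scoped ENNReal ContDiff SchwartzMap ComplexConjugate
open Pool.Agent.Lib.MP_f9aece_nt_h97
open Pool.Agent.Lib.MP_f9aece_nt_h97.Ker

theorem exists_good2 {ε : ℝ} (hε : 0 < ε) (hε1 : ε ≤ 1) : ∃ K : Ker,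
    Real.pi * K.m2 ≤ 1 + ε ∧
    (∀ u : ℝ, |u| ≤ 1 → 1 - ε ≤ ∫ v, K.g v * Real.cos (u * v)) ∧
    ∀ u : ℝ, |∫ v, K.g v * Real.cos (u * v)| ≤ 1 + ε := by
  have hpi := Real.pi_pos
  have hpi3 := Real.pi_gt_three
  have hrr : (1 : ℝ) / (2 * Real.pi) < (1 + ε) / (2 * Real.pi) := by gcongr; linarith
  set f : ContDiffBump (0 : ℝ) := ⟨1 / (2 * Real.pi), (1 + ε) / (2 * Real.pi), by positivity, hrr⟩
    with hf
  have hfo : f.rOut ≤ 1 := by
    change (1 + ε) / (2 * Real.pi) ≤ 1
    rw [div_le_one (by positivity)]; linarith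
  set Ψ := bk f hfo with hΨ
  have hΨm : Ψ.m2 ≤ (1 + ε) / Real.pi := by
    have h1 : Ψ.m2 ≤ ∫ v, (Icc (-f.rOut) f.rOut).indicator (fun _ => (1 : ℝ)) v := by
      unfold m2
      refine integral_mono_of_nonneg (Eventually.of_forall fun v => by positivity) ?_ ?_
      · rw [integrable_indicator_iff measurableSet_Icc]
        exact integrableOn_const (by simp)
      · refine Eventually.of_forall fun v => ?_
        change (f v) ^ 2 ≤ _
        by_cases hv : v ∈ Icc (-f.rOut) f.rOut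
        · rw [indicator_of_mem hv]
          have h1 := f.nonneg (x := v)
          have h2 := f.le_one (x := v)
          nlinarith
        · rw [indicator_of_notMem hv]
          have : f v = 0 := by
            apply f.zero_of_le_dist
            rw [dist_zero_right, Real.norm_eq_abs]
            by_contra hc
            push Not at hc
            exact hv (abs_le.mp hc.le)
          rw [this]; simp
    refine h1.trans (le_of_eq ?_)
    rw [integral_indicator measurableSet_Icc]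
    simp only [integral_const, MeasurableSet.univ, measureReal_restrict_apply, univ_inter,
      Real.volume_real_Icc, smul_eq_mul, mul_one]
    have h0 : (0 : ℝ) < f.rOut := f.rOut_pos
    rw [max_eq_left (by linarith)]
    change (1 + ε) / (2 * Real.pi) - -((1 + ε) / (2 * Real.pi)) = _
    field_simp
    ring
  have hlim : Tendsto (fun n : ℕ => ∫ v, |Ψ.G v - (Ψ.trunc n).g v|) atTop (𝓝 0) := by
    have h0 : (0 : ℝ) = ∫ v : ℝ, (0 : ℝ) := by simp
    rw [h0]
    refine tendsto_integral_of_dominated_convergence (fun v => |Ψ.G v|) ?_ ?_ ?_ ?_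
    · intro n
      exact (Ψ.G_cont.sub (Ψ.trunc n).cont).abs.aestronglyMeasurable
    · exact Ψ.G_integrable.abs
    · intro n
      refine Eventually.of_forall fun v => ?_
      rw [Real.norm_eq_abs, abs_abs]
      have e1 : Ψ.G v - (Ψ.trunc n).g v
          = (1 - (⟨1, 2, one_pos, one_lt_two⟩ : ContDiffBump (0 : ℝ)) (v / (n + 1))) * Ψ.G v := by
        change Ψ.G v - _ * Ψ.G v = _
        ring
      rw [e1, abs_mul]
      have h1 := (⟨1, 2, one_pos, one_lt_two⟩ : ContDiffBump (0 : ℝ)).nonneg (x := v / (n + 1))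
      have h2 := (⟨1, 2, one_pos, one_lt_two⟩ : ContDiffBump (0 : ℝ)).le_one (x := v / (n + 1))
      refine mul_le_of_le_one_left (abs_nonneg _) ?_
      rw [abs_le]
      constructor <;> linarith
    · refine Eventually.of_forall fun v => ?_
      refine tendsto_const_nhds.congr' ?_
      obtain ⟨N, hN⟩ := exists_nat_ge |v|
      filter_upwards [eventually_ge_atTop N] with n hn
      have e1 : Ψ.G v - (Ψ.trunc n).g v
          = (1 - (⟨1, 2, one_pos, one_lt_two⟩ : ContDiffBump (0 : ℝ)) (v / (n + 1))) * Ψ.G v := by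
        change Ψ.G v - _ * Ψ.G v = _
        ring
      have e2 : (⟨1, 2, one_pos, one_lt_two⟩ : ContDiffBump (0 : ℝ)) (v / (n + 1)) = 1 := by
        apply ContDiffBump.one_of_mem_closedBall
        rw [Metric.mem_closedBall, dist_zero_right, Real.norm_eq_abs, abs_div]
        have h0 : (0 : ℝ) < n + 1 := by positivity
        change |v| / |(n : ℝ) + 1| ≤ 1
        rw [abs_of_pos h0, div_le_one h0]
        have : (N : ℝ) ≤ n := by exact_mod_cast hn
        linarith
      rw [e1, e2]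
      simp
  obtain ⟨n, hn⟩ := ((hlim.eventually (gt_mem_nhds hε))).exists
  have hΨ01 : ∀ w, 0 ≤ Ψ.g w ∧ Ψ.g w ≤ 1 := fun w => by
    change 0 ≤ f w ∧ f w ≤ 1
    exact ⟨f.nonneg, f.le_one⟩
  have hcos : ∀ (u : ℝ) (F : ℝ → ℝ), Integrable F → Integrable (fun v => F v * Real.cos (u * v)) := by
    intro u F hF
    refine hF.mul_bdd (c := 1) ?_ (Eventually.of_forall fun v => ?_)
    · exact (Real.continuous_cos.comp (by fun_prop)).aestronglyMeasurable
    · exact Real.abs_cos_le_one _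
  have hkey : ∀ u : ℝ, |Ψ.g (u / (2 * Real.pi)) - ∫ v, (Ψ.trunc n).g v * Real.cos (u * v)| ≤ ε := by
    intro u
    have h1 := Ψ.integral_G_cos (u / (2 * Real.pi))
    have h3 : ∀ v : ℝ, 2 * Real.pi * v * (u / (2 * Real.pi)) = u * v := fun v => by field_simp
    simp_rw [h3] at h1
    have h4 : (∫ v, Ψ.G v * Real.cos (u * v)) - ∫ v, (Ψ.trunc n).g v * Real.cos (u * v)
        = ∫ v, (Ψ.G v - (Ψ.trunc n).g v) * Real.cos (u * v) := by
      rw [← integral_sub (hcos u _ Ψ.G_integrable) (hcos u _ (Ψ.trunc n).integrable)]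
      refine integral_congr_ae (Eventually.of_forall fun v => ?_)
      simp only
      ring
    rw [h1] at h4
    rw [h4]
    have hi : Integrable (fun v => Ψ.G v - (Ψ.trunc n).g v) :=
      Ψ.G_integrable.sub (Ψ.trunc n).integrable
    refine (abs_integral_le_integral_abs).trans (le_trans ?_ hn.le)
    refine integral_mono (hcos u _ hi).abs hi.abs fun v => ?_
    simp only
    rw [abs_mul]
    exact mul_le_of_le_one_right (abs_nonneg _) (Real.abs_cos_le_one _)
  refine ⟨Ψ.trunc n, ?_, ?_, ?_⟩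
  · have h1 : (Ψ.trunc n).m2 ≤ ∫ v, Ψ.G v ^ 2 := by
      unfold m2
      refine integral_mono_of_nonneg (Eventually.of_forall fun v => by positivity)
        Ψ.G_sq_integrable (Eventually.of_forall fun v => ?_)
      change (_ * Ψ.G v) ^ 2 ≤ _
      rw [mul_pow]
      have h1 := (⟨1, 2, one_pos, one_lt_two⟩ : ContDiffBump (0 : ℝ)).nonneg (x := v / (n + 1))
      have h2 := (⟨1, 2, one_pos, one_lt_two⟩ : ContDiffBump (0 : ℝ)).le_one (x := v / (n + 1))
      refine mul_le_of_le_one_left (by positivity) ?_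
      nlinarith
    rw [Ψ.integral_G_sq] at h1
    calc Real.pi * (Ψ.trunc n).m2 ≤ Real.pi * ((1 + ε) / Real.pi) := by
          gcongr
          exact h1.trans hΨm
      _ = 1 + ε := by field_simp
  · intro u hu
    have h2 : Ψ.g (u / (2 * Real.pi)) = 1 := by
      change f (u / (2 * Real.pi)) = 1
      apply ContDiffBump.one_of_mem_closedBall
      rw [Metric.mem_closedBall, dist_zero_right, Real.norm_eq_abs, abs_div,
        abs_of_pos (by positivity : (0 : ℝ) < 2 * Real.pi)]
      change |u| / (2 * Real.pi) ≤ 1 / (2 * Real.pi)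
      gcongr
    have h3 := hkey u
    rw [h2] at h3
    have := (abs_le.mp h3).2
    linarith
  · intro u
    have h3 := abs_le.mp (hkey u)
    have h4 := hΨ01 (u / (2 * Real.pi))
    rw [abs_le]
    constructor <;> linarith [h3.1, h3.2, h4.1, h4.2]

lemma norm_int_E (K : Ker) {B : ℝ} (hB : ∀ u : ℝ, |∫ v, K.g v * Real.cos (u * v)| ≤ B) (u : ℝ) :
    ‖∫ v : ℝ, cexp (I * (u * v : ℝ)) * (K.g v : ℂ)‖ ≤ B := by
  have hpi := Real.pi_pos
  have h1 := K.fourier_eq' (-(u / (2 * Real.pi)))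
  rw [Real.fourier_real_eq_integral_exp_smul] at h1
  have h2 : ∀ v : ℝ, cexp (↑(-2 * Real.pi * v * -(u / (2 * Real.pi))) * I) • (K.g v : ℂ)
      = cexp (I * (u * v : ℝ)) * (K.g v : ℂ) := by
    intro v
    rw [smul_eq_mul]
    congr 2
    rw [mul_comm I]
    congr 2
    field_simp
  simp_rw [h2] at h1
  rw [h1, Complex.norm_real, Real.norm_eq_abs, K.G_even, K.G_eq_integral]
  have h3 : ∀ v : ℝ, 2 * Real.pi * v * (u / (2 * Real.pi)) = u * v := fun v => by field_simp
  simp_rw [h3]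
  exact hB u

lemma cexp_sub_bound2 {v T t L U : ℝ} (hL : 1 ≤ L) (hU : 1 ≤ U) (hT : 4 * U * L ^ 2 ≤ T)
    (hv : |v| ≤ L) (ht0 : 0 ≤ t) (htT : t ≤ U * T) :
    ‖((1 + v / T : ℝ) : ℂ) ^ (1 / 2 + I * t - 1 : ℂ) - cexp (I * (t / T * v : ℝ))‖
      ≤ 4 * U * L ^ 2 / T := by
  have hL2 : 1 ≤ L ^ 2 := by nlinarith
  have hUL : 1 ≤ U * L ^ 2 := by nlinarith
  have hT0 : 0 < T := by nlinarith
  set w := v / T with hw
  have hwa : |w| ≤ L / T := by
    rw [hw, abs_div, abs_of_pos hT0]; gcongr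
  have hLT : L / T ≤ 1 / 4 := by
    rw [div_le_iff₀ hT0]; nlinarith
  have hw2 : |w| ≤ 1 / 2 := by linarith
  have h1w : 0 < 1 + w := by
    have := (abs_le.mp hw2).1; linarith
  set ℓ := Real.log (1 + w) with hℓ
  have hlw := abs_log_one_add_sub hw2
  rw [← hℓ] at hlw
  have hcp : ((1 + w : ℝ) : ℂ) ^ (1 / 2 + I * t - 1 : ℂ)
      = cexp (I * (t / T * v : ℝ)) * cexp (-(ℓ / 2) + I * (t * (ℓ - w))) := by
    rw [Complex.cpow_def_of_ne_zero (by exact_mod_cast h1w.ne'), ← Complex.ofReal_log h1w.le,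
      ← Complex.exp_add]
    congr 1
    have : t / T * v = t * w := by rw [hw]; ring
    rw [this, ← hℓ]
    push_cast
    ring
  rw [hcp]
  set z : ℂ := -(ℓ / 2) + I * (t * (ℓ - w)) with hz
  have hwsq : w ^ 2 ≤ (L / T) ^ 2 := by
    rw [← sq_abs w]; gcongr
  have hzn : ‖z‖ ≤ 2 * U * L ^ 2 / T := by
    have h1 : ‖z‖ ≤ |ℓ| / 2 + t * |ℓ - w| := by
      rw [hz]
      refine (norm_add_le _ _).trans (le_of_eq ?_)
      rw [norm_neg, norm_div, norm_mul, norm_I, one_mul, norm_mul, Complex.norm_real, Complex.norm_real,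
        Real.norm_eq_abs, Real.norm_eq_abs, abs_of_nonneg ht0]
      have : ((ℓ : ℂ) - (w : ℂ)) = ((ℓ - w : ℝ) : ℂ) := by push_cast; ring
      rw [this, Complex.norm_real, Real.norm_eq_abs]
      norm_num
    have h2 : |ℓ| ≤ 2 * (L / T) := by
      have : |ℓ| ≤ |ℓ - w| + |w| := by
        have := abs_add_le (ℓ - w) w
        rwa [sub_add_cancel] at this
      have h3 : (L / T) ^ 2 ≤ L / T * (1 / 4) := by
        rw [sq]; gcongr
      linarith [div_nonneg (by linarith : (0 : ℝ) ≤ L) hT0.le]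
    have h3 : t * |ℓ - w| ≤ U * L ^ 2 / T := by
      calc t * |ℓ - w| ≤ (U * T) * (L / T) ^ 2 := by
            gcongr
            exact hlw.trans hwsq
        _ = U * L ^ 2 / T := by field_simp
    have h4 : L / T ≤ U * L ^ 2 / T := by
      gcongr
      nlinarith
    calc ‖z‖ ≤ |ℓ| / 2 + t * |ℓ - w| := h1
      _ ≤ 2 * (L / T) / 2 + U * L ^ 2 / T := by gcongr
      _ ≤ 2 * U * L ^ 2 / T := by
          have : 2 * U * L ^ 2 / T = U * L ^ 2 / T + U * L ^ 2 / T := by ring
          rw [this]; linarith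
  have hz1 : ‖z‖ ≤ 1 := by
    refine hzn.trans ?_
    rw [div_le_one hT0]; linarith
  have e1 : cexp (I * (t / T * v : ℝ)) * cexp z - cexp (I * (t / T * v : ℝ))
      = cexp (I * (t / T * v : ℝ)) * (cexp z - 1) := by ring
  have hn1 : ‖cexp (I * (t / T * v : ℝ))‖ = 1 := by
    rw [mul_comm]; exact Complex.norm_exp_ofReal_mul_I _
  rw [e1, norm_mul, hn1, one_mul]
  calc ‖cexp z - 1‖ ≤ 2 * ‖z‖ := Complex.norm_exp_sub_one_le hz1
    _ ≤ 2 * (2 * U * L ^ 2 / T) := by gcongr
    _ = 4 * U * L ^ 2 / T := by ring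

/-- upper bound in the range `0 ≤ t ≤ U T` -/
lemma mellin_upper_low (K : Ker) {B : ℝ} (hB : ∀ u : ℝ, |∫ v, K.g v * Real.cos (u * v)| ≤ B)
    {T t U : ℝ} (hU : 1 ≤ U) (hT : 4 * U * K.L ^ 2 ≤ T) (ht0 : 0 ≤ t) (htT : t ≤ U * T) :
    T * ‖mellin (fun x => (K.phi T x : ℂ)) (1 / 2 + I * t)‖ ≤ B + 4 * U * K.L ^ 2 / T * K.ml := by
  have hL := K.hL
  have hL2 : 1 ≤ K.L ^ 2 := by nlinarith
  have hT0 : 0 < T := by nlinarith
  have hT2 : 2 * K.L ≤ T := by nlinarith
  have h1 := K.mellin_phi hT2 (1 / 2 + I * t)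
  set F : ℝ → ℂ := fun v => ((1 + v / T : ℝ) : ℂ) ^ (1 / 2 + I * t - 1 : ℂ) * (K.g v : ℂ) with hF
  set E : ℝ → ℂ := fun v => cexp (I * (t / T * v : ℝ)) * (K.g v : ℂ) with hE
  have hEi : Integrable E := by
    have hc : Continuous E := by
      rw [hE]
      exact (by fun_prop : Continuous fun v : ℝ => cexp (I * (t / T * v : ℝ))).mul
        (Complex.continuous_ofReal.comp K.cont)
    refine hc.integrable_of_hasCompactSupport ?_
    refine HasCompactSupport.mul_left ?_
    exact K.csC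
  have hdb : ∀ v, ‖F v - E v‖ ≤ 4 * U * K.L ^ 2 / T * |K.g v| := by
    intro v
    by_cases hv : K.g v = 0
    · simp [hF, hE, hv]
    · have hv2 := K.supp v hv
      have := cexp_sub_bound2 hL hU hT hv2 ht0 htT
      have e1 : F v - E v = (((1 + v / T : ℝ) : ℂ) ^ (1 / 2 + I * t - 1 : ℂ)
          - cexp (I * (t / T * v : ℝ))) * (K.g v : ℂ) := by
        rw [hF, hE]; ring
      rw [e1, norm_mul, Complex.norm_real, Real.norm_eq_abs]
      gcongr
  have hdi : Integrable (fun v => 4 * U * K.L ^ 2 / T * |K.g v|) := K.integrable.abs.const_mul _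
  have hFm : AEStronglyMeasurable F volume := by
    rw [hF]
    refine AEStronglyMeasurable.mul ?_ (Complex.continuous_ofReal.comp K.cont).aestronglyMeasurable
    refine Measurable.aestronglyMeasurable ?_
    refine Measurable.pow_const ?_ _
    fun_prop
  have hFE : Integrable (fun v => F v - E v) :=
    Integrable.mono' hdi (hFm.sub hEi.1) (Eventually.of_forall hdb)
  have hFi : Integrable F := by
    have := hFE.add hEi
    refine this.congr (Eventually.of_forall fun v => ?_)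
    simp
  have h3 : ‖(∫ v, F v) - ∫ v, E v‖ ≤ 4 * U * K.L ^ 2 / T * K.ml := by
    rw [← integral_sub hFi hEi]
    refine (norm_integral_le_of_norm_le hdi (Eventually.of_forall hdb)).trans (le_of_eq ?_)
    rw [integral_const_mul]
    rfl
  have h4 : ‖∫ v, E v‖ ≤ B := norm_int_E K hB (t / T)
  have h5 : ‖∫ v, F v‖ ≤ B + 4 * U * K.L ^ 2 / T * K.ml := by
    have := norm_sub_norm_le (∫ v, F v) (∫ v, E v)
    linarith
  rw [← h1, norm_mul, Complex.norm_real, Real.norm_eq_abs, abs_of_pos hT0] at h5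
  exact h5

lemma phi_conj (K : Ker) (T t : ℝ) :
    ‖mellin (fun x => (K.phi T x : ℂ)) (1 / 2 + I * ((-t : ℝ) : ℂ))‖
      = ‖mellin (fun x => (K.phi T x : ℂ)) (1 / 2 + I * (t : ℂ))‖ := by
  have h1 : mellin (fun x => (K.phi T x : ℂ)) (1 / 2 + I * ((-t : ℝ) : ℂ))
      = conj (mellin (fun x => (K.phi T x : ℂ)) (1 / 2 + I * (t : ℂ))) := by
    unfold mellin
    rw [← integral_conj]
    refine setIntegral_congr_fun measurableSet_Ioi fun x hx => ?_
    rw [mem_Ioi] at hx
    simp only [smul_eq_mul, map_mul, Complex.conj_ofReal]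
    congr 1
    have harg : ((x : ℂ)).arg ≠ Real.pi := by
      rw [Complex.arg_ofReal_of_nonneg hx.le]
      exact Real.pi_ne_zero.symm
    have h2 := Complex.cpow_conj (x : ℂ) (1 / 2 + I * (t : ℂ) - 1) harg
    rw [Complex.conj_ofReal] at h2
    rw [← h2]
    congr 1
    simp only [map_sub, map_add, map_mul, map_one, Complex.conj_I, Complex.conj_ofReal, map_div₀,
      Complex.conj_ofNat]
    push_cast
    ring
  rw [h1, RCLike.norm_conj]

/-- decay of the transform -/
lemma mellin_upper_high (K : Ker) : ∃ C : ℝ, 0 ≤ C ∧ ∀ T : ℝ, 2 * (K.L + 1) ≤ T → ∀ t : ℝ, t ≠ 0 →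
    T * ‖mellin (fun x => (K.phi T x : ℂ)) (1 / 2 + I * t)‖ ≤ C * (T / |t|) := by
  have hL := K.hL
  set R := K.L + 1 with hR
  have hdc : Continuous (deriv K.g) := K.smooth.continuous_deriv (by simp)
  obtain ⟨D, hD⟩ := (isCompact_Icc (a := -R) (b := R)).exists_bound_of_continuousOn hdc.continuousOn
  have hD0 : 0 ≤ D := (norm_nonneg _).trans (hD 0 ⟨by linarith, by linarith⟩)
  refine ⟨D * 2 * (2 * R), by positivity, fun T hT t ht => ?_⟩
  have hT0 : 0 < T := by linarith
  have h1 := K.mellin_phi (by linarith : 2 * K.L ≤ T) (1 / 2 + I * t)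
  set r : ℂ := 1 / 2 + I * t - 1 with hr
  have hr1 : r + 1 = 1 / 2 + I * t := by rw [hr]; ring
  have hrre : (r + 1).re = 1 / 2 := by rw [hr1]; simp
  have hrim : (r + 1).im = t := by rw [hr1]; simp
  have hr0 : r + 1 ≠ 0 := by
    intro h
    rw [h] at hrre
    norm_num at hrre
  have hrn : r ≠ -1 := by
    intro h
    apply hr0
    rw [h]; ring
  have hpos : ∀ v ∈ uIcc (-R) R, 0 < 1 + v / T ∧ 1 + v / T ≤ 2 := by
    intro v hv
    rw [uIcc_of_le (by linarith)] at hv
    have h2 : v / T ≤ 1 / 2 := by rw [div_le_iff₀ hT0]; linarith [hv.2]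
    have h3 : -(1 / 2) ≤ v / T := by rw [le_div_iff₀ hT0]; linarith [hv.1]
    constructor <;> linarith
  set P : ℝ → ℂ := fun v => (T : ℂ) * ((((1 + v / T : ℝ) : ℂ)) ^ (r + 1) / (r + 1)) with hP
  have hPd : ∀ v ∈ uIcc (-R) R, HasDerivAt P (((1 + v / T : ℝ) : ℂ) ^ r) v := by
    intro v hv
    have h2 := hasDerivAt_ofReal_cpow_const' (hpos v hv).1.ne' hrn
    have h3 : HasDerivAt (fun v : ℝ => 1 + v / T) (1 / T) v := by
      have := ((hasDerivAt_id v).div_const T).const_add 1
      simpa using this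
    have h4 := (h2.scomp v h3).const_mul (T : ℂ)
    have hTne : (T : ℂ) ≠ 0 := by exact_mod_cast hT0.ne'
    refine h4.congr_deriv ?_
    rw [Complex.real_smul]
    push_cast
    field_simp
  have hgd : ∀ v ∈ uIcc (-R) R, HasDerivAt (fun v => (K.g v : ℂ)) ((deriv K.g v : ℝ) : ℂ) v := by
    intro v _
    have : DifferentiableAt ℝ K.g v := (K.smooth.differentiable (by simp)) v
    exact this.hasDerivAt.ofReal_comp
  have hPc : ContinuousOn (fun v : ℝ => ((1 + v / T : ℝ) : ℂ) ^ r) (uIcc (-R) R) := by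
    intro v hv
    have h2 : ContinuousAt (fun v : ℝ => ((1 + v / T : ℝ) : ℂ) ^ r) v := by
      refine ContinuousAt.cpow (by fun_prop) continuousAt_const ?_
      left
      rw [Complex.ofReal_re]
      exact (hpos v hv).1
    exact h2.continuousWithinAt
  have hibp := intervalIntegral.integral_mul_deriv_eq_deriv_mul (a := -R) (b := R) hgd hPd
    ((Complex.continuous_ofReal.comp hdc).intervalIntegrable _ _) hPc.intervalIntegrable
  have hgR : K.g R = 0 := K.zero_of (by rw [abs_of_pos (by linarith)]; linarith)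
  have hgR' : K.g (-R) = 0 := by rw [K.even]; exact hgR
  simp only [hgR, hgR', Complex.ofReal_zero, zero_mul, sub_zero, zero_sub] at hibp
  have h5 : ∫ v : ℝ, ((1 + v / T : ℝ) : ℂ) ^ r * (K.g v : ℂ)
      = ∫ v in (-R)..R, (K.g v : ℂ) * ((1 + v / T : ℝ) : ℂ) ^ r := by
    rw [← intervalIntegral.integral_eq_integral_of_support_subset (a := -R) (b := R)]
    · refine intervalIntegral.integral_congr fun v _ => ?_
      ring
    · intro v hv
      rw [Function.mem_support] at hv
      have h6 : K.g v ≠ 0 := by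
        intro h0
        apply hv
        rw [h0]; simp
      have := abs_le.mp (K.supp v h6)
      constructor <;> linarith
  rw [h5, hibp] at h1
  have h7 : ‖∫ v in (-R)..R, ((deriv K.g v : ℝ) : ℂ) * P v‖ ≤ (D * (2 * (T / |t|))) * |R - -R| := by
    refine intervalIntegral.norm_integral_le_of_norm_le_const fun v hv => ?_
    have hv' : v ∈ uIcc (-R) R := uIoc_subset_uIcc hv
    have hv2 := hpos v hv'
    rw [norm_mul, Complex.norm_real]
    have h8 : ‖deriv K.g v‖ ≤ D := hD v (by rwa [uIcc_of_le (by linarith)] at hv')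
    have h9 : ‖P v‖ ≤ 2 * (T / |t|) := by
      rw [hP]
      simp only
      rw [norm_mul, norm_div, Complex.norm_real, Real.norm_eq_abs, abs_of_pos hT0,
        Complex.norm_cpow_eq_rpow_re_of_pos hv2.1, hrre]
      have h10 : (1 + v / T) ^ (1 / 2 : ℝ) ≤ 2 := by
        calc (1 + v / T) ^ (1 / 2 : ℝ) ≤ 2 ^ (1 / 2 : ℝ) :=
              Real.rpow_le_rpow hv2.1.le hv2.2 (by norm_num)
          _ ≤ 2 ^ (1 : ℝ) := Real.rpow_le_rpow_of_exponent_le (by norm_num) (by norm_num)
          _ = 2 := by norm_num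
      have h11 : |t| ≤ ‖r + 1‖ := by
        have := Complex.abs_im_le_norm (r + 1)
        rwa [hrim] at this
      have ht0 : 0 < |t| := abs_pos.mpr ht
      calc T * ((1 + v / T) ^ (1 / 2 : ℝ) / ‖r + 1‖) ≤ T * (2 / |t|) := by gcongr
        _ = _ := by ring
    gcongr
  have h12 := congrArg norm h1
  rw [norm_mul, Complex.norm_real, Real.norm_eq_abs, abs_of_pos hT0, norm_neg] at h12
  rw [h12]
  refine h7.trans (le_of_eq ?_)
  have : R - -R = 2 * R := by ring
  rw [this, abs_of_pos (by linarith : (0 : ℝ) < 2 * R)]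
  ring

theorem mellin_upper (K : Ker) {B : ℝ} (hB : ∀ u : ℝ, |∫ v, K.g v * Real.cos (u * v)| ≤ B)
    {ε : ℝ} (hε : 0 < ε) : ∃ T0 : ℝ, 1 ≤ T0 ∧ ∀ T : ℝ, T0 ≤ T → ∀ t : ℝ,
    T * ‖mellin (fun x => (K.phi T x : ℂ)) (1 / 2 + I * t)‖ ≤ B + ε := by
  obtain ⟨C, hC, hC2⟩ := mellin_upper_high K
  have hL := K.hL
  have hml := K.ml_nonneg
  have hB0 : 0 ≤ B := (abs_nonneg _).trans (hB 0)
  set U := 1 + C / ε with hU
  have hU1 : 1 ≤ U := by rw [hU]; have : 0 ≤ C / ε := by positivity
                         linarith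
  refine ⟨max (2 * (K.L + 1)) (4 * U * K.L ^ 2 + 4 * U * K.L ^ 2 * K.ml / ε), ?_, fun T hT t => ?_⟩
  · exact le_max_of_le_left (by linarith)
  have hTa : 2 * (K.L + 1) ≤ T := (le_max_left _ _).trans hT
  have hTb : 4 * U * K.L ^ 2 + 4 * U * K.L ^ 2 * K.ml / ε ≤ T := (le_max_right _ _).trans hT
  have hT0 : 0 < T := by linarith
  have hTc : 4 * U * K.L ^ 2 ≤ T := by
    have : 0 ≤ 4 * U * K.L ^ 2 * K.ml / ε := by positivity
    linarith
  have hTd : 4 * U * K.L ^ 2 / T * K.ml ≤ ε := by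
    have h1 : 4 * U * K.L ^ 2 * K.ml / ε ≤ T := by
      have : 0 ≤ 4 * U * K.L ^ 2 := by positivity
      linarith
    rw [div_le_iff₀ hε] at h1
    rw [div_mul_eq_mul_div, div_le_iff₀ hT0]
    linarith
  have key : ∀ t : ℝ, 0 ≤ t → T * ‖mellin (fun x => (K.phi T x : ℂ)) (1 / 2 + I * t)‖ ≤ B + ε := by
    intro t ht
    rcases le_or_gt t (U * T) with h | h
    · refine (mellin_upper_low K hB hU1 hTc ht h).trans ?_
      linarith
    · have ht0 : 0 < t := lt_of_le_of_lt (by positivity) h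
      refine (hC2 T hTa t ht0.ne').trans ?_
      rw [abs_of_pos ht0]
      have h2 : C * (T / t) ≤ ε := by
        rw [mul_div_assoc', div_le_iff₀ ht0]
        have h3 : C / ε ≤ U := by rw [hU]; linarith
        rw [div_le_iff₀ hε] at h3
        nlinarith
      linarith
  rcases le_total 0 t with h | h
  · exact key t h
  · have := key (-t) (by linarith)
    rwa [phi_conj] at this

end Pool.Agent.Lib.MP_f9aece_nt_h85
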