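import Mathlib
import Pool.Agent.Lib.MP_f9aece_nt_h85.Kernel2
import Pool.Agent.Lib.MP_f9aece_nt_h97.OffB

/-!
The energy of a Dirichlet polynomial times the Mellin transform of the bump: bound of the full
energy, and the tail `t > T`.
-/

set_option autoImplicit false

namespace Pool.Agent.Lib.MP_f9aece_nt_h85

open MeasureTheory Set Filter Topology Complex FourierTransform
open scoped ENNReal ContDiff SchwartzMap ComplexConjugate
open Pool.Agent.Lib.MP_f9aece_nt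
open Pool.Agent.Lib.MP_f9aece_nt_h97
open Pool.Agent.Lib.MP_f9aece_nt_h97.Ker

section bump

variable {φ : ℝ → ℝ} (hφ : Bmp φ) {f : DP} (hf : ∀ n, f.coeff n ≠ 0 → 1 ≤ n)

include hφ hf

lemma QB_supp : ∃ a : ℝ, 0 < a ∧ ∀ x, QB φ f x ≠ 0 → x ∈ Icc a 2 := by
  set N : ℕ := f.coeff.support.sup id + 1 with hN
  refine ⟨1 / (2 * (N : ℝ)), by positivity, fun x hx => ?_⟩
  unfold QB at hx
  obtain ⟨h, hh, hne⟩ := Finset.exists_ne_zero_of_sum_ne_zero hx
  have hh1 := hf h (Finsupp.mem_support_iff.mp hh)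
  have h2 := hφ.supp _ (right_ne_zero_of_mul hne)
  have hh0 : (1 : ℝ) ≤ h := by exact_mod_cast hh1
  have hhN : (h : ℝ) ≤ (N : ℝ) := by
    have : h ≤ f.coeff.support.sup id := Finset.le_sup (f := id) hh
    exact_mod_cast (by omega : h ≤ N)
  have hx0 : 0 < x := by
    by_contra hc
    push Not at hc
    nlinarith [h2.1]
  constructor
  · rw [div_le_iff₀ (by linarith)]
    nlinarith [h2.1]
  · nlinarith [h2.2]

lemma QB_int1 : IntegrableOn (fun x : ℝ => x ^ (-(1 / 2) : ℝ) * QB φ f x) (Ioi 0) := by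
  obtain ⟨a, ha, h⟩ := QB_supp hφ hf
  refine IntegrableOn.of_forall_sdiff_eq_zero (s := Icc a 2) ?_ measurableSet_Ioi ?_
  · refine ContinuousOn.integrableOn_compact isCompact_Icc ?_
    refine ContinuousOn.mul (fun x hx => ?_) (hφ.QB_cont f).continuousOn
    have hx0 : 0 < x := lt_of_lt_of_le ha hx.1
    exact (Real.continuousAt_rpow_const _ _ (Or.inl hx0.ne')).continuousWithinAt
  · intro x hx
    have : QB φ f x = 0 := by
      by_contra hne
      exact hx.2 (h x hne)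
    rw [this, mul_zero]

lemma QB_cs : HasCompactSupport (QB φ f) := by
  obtain ⟨a, _, h⟩ := QB_supp hφ hf
  refine HasCompactSupport.intro (isCompact_Icc (a := a) (b := 2)) fun x hx => ?_
  by_contra hne
  exact hx (h x hne)

lemma QB_int2 : IntegrableOn (fun x : ℝ => QB φ f x ^ 2) (Ioi 0) := by
  have h1 : Continuous (fun x => QB φ f x ^ 2) := (hφ.QB_cont f).pow 2
  have h2 : HasCompactSupport (fun x => QB φ f x ^ 2) :=
    (QB_cs hφ hf).comp_left (g := fun y : ℝ => y ^ 2) (by norm_num)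
  exact (h1.integrable_of_hasCompactSupport h2).integrableOn

lemma mellin_QB (s : ℂ) : mellin (fun x => (QB φ f x : ℂ)) s
    = evs s f * mellin (fun x => (φ x : ℂ)) s := by
  have hm := hφ.mellinConv s
  have key : ∀ S : Finset ℕ, (∀ n ∈ S, 1 ≤ n) →
      HasMellin (fun x => ((∑ h ∈ S, f.coeff h * φ (h * x) : ℝ) : ℂ)) s
        (∑ h ∈ S, (f.coeff h : ℂ) * (h : ℂ) ^ (-s) * mellin (fun x => (φ x : ℂ)) s) := by
    classical
    intro S
    induction S using Finset.induction_on with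
    | empty =>
      intro _
      refine ⟨?_, ?_⟩
      · simp only [MellinConvergent, Finset.sum_empty, ofReal_zero, smul_zero]
        exact integrableOn_zero
      · simp [mellin]
    | insert n S hn ih =>
      intro hS
      have ih' := ih fun m hm => hS m (Finset.mem_insert_of_mem hm)
      have hn1 : 1 ≤ n := hS n (Finset.mem_insert_self _ _)
      have hn0 : (0 : ℝ) < n := by exact_mod_cast hn1
      have c1 : MellinConvergent (fun x : ℝ => ((φ (n * x) : ℝ) : ℂ)) s :=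
        (MellinConvergent.comp_mul_left (f := fun x => (φ x : ℂ)) hn0).mpr hm
      have c2 := mellin_comp_mul_left (fun x => (φ x : ℂ)) s hn0
      have c3 := hasMellin_const_smul c1 (f.coeff n : ℂ)
      have c4 := hasMellin_add c3.1 ih'.1
      have e : (fun x => ((∑ h ∈ insert n S, f.coeff h * φ (h * x) : ℝ) : ℂ))
          = fun x => (f.coeff n : ℂ) • ((φ (n * x) : ℝ) : ℂ)
            + ((∑ h ∈ S, f.coeff h * φ (h * x) : ℝ) : ℂ) := by
        funext x
        rw [Finset.sum_insert hn, smul_eq_mul]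
        push_cast
        ring
      rw [e]
      refine ⟨c4.1, ?_⟩
      rw [c4.2, c3.2, ih'.2, c2, Finset.sum_insert hn, smul_eq_mul, smul_eq_mul]
      push_cast
      ring
  have h1 := key f.coeff.support fun n hn => hf n (Finsupp.mem_support_iff.mp hn)
  have h2 : mellin (fun x => (QB φ f x : ℂ)) s = _ := h1.2
  rw [h2, ← Finset.sum_mul, evs]

end bump

lemma evs_half (t : ℝ) (f : DP) : evs (1 / 2 + I * t) f = ev t f := by
  rw [ev_apply, evs]

/-! ### the energy in physical space -/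

lemma QB_sq {K : Ker} {T H : ℝ} (hT : 2 * K.L ≤ T) (hH : 1 ≤ H) (hTH : 4 * K.L * H < T) {f : DP}
    (hf : ∀ n, f.coeff n ≠ 0 → 1 ≤ n ∧ (n : ℝ) ≤ H) (x : ℝ) :
    QB (K.phi T) f x ^ 2 = ∑ h ∈ f.coeff.support, f.coeff h ^ 2 * K.phi T (h * x) ^ 2 := by
  classical
  have hL := K.hL
  have hT0 : 0 < T := by linarith
  unfold QB
  rw [sq, Finset.sum_mul_sum]
  refine Finset.sum_congr rfl fun h hh => ?_
  rw [Finset.sum_eq_single h]
  · ring
  · intro k hk hkh
    have h1 := hf h (Finsupp.mem_support_iff.mp hh)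
    have h2 := hf k (Finsupp.mem_support_iff.mp hk)
    have h0 : K.phi T (h * x) * K.phi T (k * x) = 0 := by
      by_contra hne
      have a1 := abs_le.mp (K.phi_supp hT0 (left_ne_zero_of_mul hne))
      have a2 := abs_le.mp (K.phi_supp hT0 (right_ne_zero_of_mul hne))
      have hLT : K.L / T ≤ 1 / 2 := by rw [div_le_iff₀ hT0]; linarith
      have hx1 : 1 / 2 ≤ h * x := by linarith
      have hh0 : (0 : ℝ) < h := by exact_mod_cast h1.1
      have hx0 : 0 < x := by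
        by_contra hc
        push Not at hc
        nlinarith
      have hx2 : 1 ≤ 2 * H * x := by
        have : (h : ℝ) * x ≤ H * x := by
          have := h1.2
          gcongr
        linarith
      have h3 : |(h : ℝ) - k| * x ≤ 2 * (K.L / T) := by
        have e : |(h : ℝ) - k| * x = |h * x - k * x| := by
          rw [← sub_mul, abs_mul, abs_of_pos hx0]
        rw [e, abs_le]
        constructor <;> linarith [a1.1, a1.2, a2.1, a2.2]
      have h4 : (1 : ℝ) ≤ |(h : ℝ) - k| := by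
        have h5 : (1 : ℤ) ≤ |(h : ℤ) - k| := by
          apply Int.one_le_abs
          intro h6
          apply hkh
          omega
        have h7 : ((1 : ℤ) : ℝ) ≤ ((|(h : ℤ) - k| : ℤ) : ℝ) := by exact_mod_cast h5
        push_cast at h7
        exact h7
      have h5 : x ≤ 2 * (K.L / T) := by nlinarith
      have h6 : 1 ≤ 2 * H * (2 * (K.L / T)) := by
        calc (1 : ℝ) ≤ 2 * H * x := hx2
          _ ≤ _ := by gcongr
      have h7 : 2 * H * (2 * (K.L / T)) = 4 * K.L * H / T := by ring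
      rw [h7, le_div_iff₀ hT0] at h6
      linarith
    calc f.coeff h * K.phi T (h * x) * (f.coeff k * K.phi T (k * x))
        = f.coeff h * f.coeff k * (K.phi T (h * x) * K.phi T (k * x)) := by ring
      _ = 0 := by rw [h0, mul_zero]
  · intro hc; exact absurd hh hc

lemma integral_phi_comp {K : Ker} {T : ℝ} (hT : 2 * K.L ≤ T) {h : ℕ} (hh : 1 ≤ h) :
    IntegrableOn (fun x : ℝ => K.phi T (h * x) ^ 2) (Ioi 0) ∧
    ∫ x in Ioi (0 : ℝ), K.phi T (h * x) ^ 2 = (h : ℝ)⁻¹ * (T⁻¹ * K.m2) := by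
  have hL := K.hL
  have hT0 : 0 < T := by linarith
  have hh0 : (0 : ℝ) < h := by exact_mod_cast hh
  have hb := K.phi_bmp hT
  have hc : Continuous (fun x : ℝ => K.phi T x ^ 2) := hb.cont.pow 2
  have hcs : HasCompactSupport (fun x : ℝ => K.phi T x ^ 2) :=
    hb.compactSupp.comp_left (g := fun y : ℝ => y ^ 2) (by norm_num)
  have hi : Integrable (fun x : ℝ => K.phi T x ^ 2) volume :=
    hc.integrable_of_hasCompactSupport hcs
  constructor
  · have := hi.comp_mul_left' hh0.ne'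
    exact this.integrableOn
  · have h1 := integral_comp_mul_left_Ioi (fun y => K.phi T y ^ 2) 0 hh0
    rw [mul_zero, smul_eq_mul] at h1
    rw [h1]
    congr 1
    rw [← K.integral_phi_sq hT0]
    refine setIntegral_eq_integral_of_forall_compl_eq_zero fun x hx => ?_
    rw [mem_Ioi, not_lt] at hx
    rw [hb.zero_of_lt (by linarith)]
    norm_num

lemma energy_QB {K : Ker} {T H : ℝ} (hT : 2 * K.L ≤ T) (hH : 1 ≤ H) (hTH : 4 * K.L * H < T) {f : DP}
    (hf : ∀ n, f.coeff n ≠ 0 → 1 ≤ n ∧ (n : ℝ) ≤ H) :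
    ∫ x in Ioi (0 : ℝ), QB (K.phi T) f x ^ 2 = K.m2 / T * BK K1 f f := by
  simp_rw [QB_sq hT hH hTH hf]
  rw [integral_finsetSum _ fun h hh =>
    ((integral_phi_comp hT (hf h (Finsupp.mem_support_iff.mp hh)).1).1).const_mul _]
  unfold BK
  rw [pair_def, Finset.mul_sum]
  refine Finset.sum_congr rfl fun h hh => ?_
  rw [integral_const_mul, (integral_phi_comp hT (hf h (Finsupp.mem_support_iff.mp hh)).1).2]
  have : pair (fun b => K1 h b) f = f.coeff h * (h : ℝ)⁻¹ := by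
    rw [pair_def, Finset.sum_eq_single h]
    · rw [K1, if_pos rfl]
    · intro b _ hb
      rw [K1, if_neg (Ne.symm hb), mul_zero]
    · intro hc; exact absurd hh hc
  rw [this]
  ring

/-! ### the mean value theorem -/

lemma sum_inv_sqrt_le {H : ℝ} (hH : 1 ≤ H) (s : Finset ℕ) (hs : ∀ n ∈ s, 1 ≤ n ∧ (n : ℝ) ≤ H) :
    ∑ n ∈ s, (n : ℝ) ^ (-(1 / 2) : ℝ) ≤ 2 * Real.sqrt H := by
  have h1 : ∀ N : ℕ, ∑ n ∈ Finset.Icc 1 N, (n : ℝ) ^ (-(1 / 2) : ℝ) ≤ 2 * Real.sqrt N := by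
    intro N
    induction N with
    | zero => simp
    | succ N ih =>
      rw [Finset.sum_Icc_succ_top (by omega)]
      have h2 : ((N + 1 : ℕ) : ℝ) ^ (-(1 / 2) : ℝ) ≤ 2 * (Real.sqrt ((N + 1 : ℕ) : ℝ) - Real.sqrt N) := by
        have hN : (0 : ℝ) ≤ N := Nat.cast_nonneg N
        rw [Real.rpow_neg (by positivity), ← Real.sqrt_eq_rpow]
        push_cast
        set a := Real.sqrt ((N : ℝ) + 1) with ha
        set b := Real.sqrt (N : ℝ) with hb
        have ha2 : a ^ 2 = N + 1 := Real.sq_sqrt (by linarith)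
        have hb2 : b ^ 2 = N := Real.sq_sqrt hN
        have ha0 : 0 < a := Real.sqrt_pos.mpr (by linarith)
        have hb0 : 0 ≤ b := Real.sqrt_nonneg _
        have hab : b ≤ a := Real.sqrt_le_sqrt (by linarith)
        rw [inv_le_iff_one_le_mul₀ ha0]
        nlinarith
      linarith
  have hsub : s ⊆ Finset.Icc 1 ⌊H⌋₊ := by
    intro n hn
    obtain ⟨h2, h3⟩ := hs n hn
    rw [Finset.mem_Icc]
    exact ⟨h2, Nat.le_floor h3⟩
  calc ∑ n ∈ s, (n : ℝ) ^ (-(1 / 2) : ℝ) ≤ ∑ n ∈ Finset.Icc 1 ⌊H⌋₊, (n : ℝ) ^ (-(1 / 2) : ℝ) :=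
        Finset.sum_le_sum_of_subset_of_nonneg hsub fun n _ _ => by positivity
    _ ≤ 2 * Real.sqrt (⌊H⌋₊ : ℕ) := h1 _
    _ ≤ 2 * Real.sqrt H := by
        gcongr
        exact Nat.floor_le (by linarith)

lemma abs_log_sub_ge {a b : ℕ} {H : ℝ} (ha : 1 ≤ a) (hb : 1 ≤ b) (haH : (a : ℝ) ≤ H)
    (hbH : (b : ℝ) ≤ H) (hab : a ≠ b) : 1 / H ≤ |Real.log b - Real.log a| := by
  wlog h : a < b generalizing a b with hw
  · rw [abs_sub_comm]
    exact hw hb ha hbH haH hab.symm (lt_of_le_of_ne (not_lt.mp h) hab.symm)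
  have ha0 : (0 : ℝ) < a := by exact_mod_cast ha
  have hb0 : (0 : ℝ) < b := by exact_mod_cast hb
  have hH0 : 0 < H := by linarith
  have h1 : (a : ℝ) + 1 ≤ b := by exact_mod_cast h
  have h2 := Real.one_sub_inv_le_log_of_pos (div_pos hb0 ha0)
  rw [Real.log_div hb0.ne' ha0.ne', inv_div] at h2
  have h3 : 1 / H ≤ 1 - (a : ℝ) / b := by
    have : 1 - (a : ℝ) / b = (b - a) / b := by field_simp
    rw [this, div_le_div_iff₀ hH0 hb0]
    nlinarith
  exact h3.trans (h2.trans (le_abs_self _))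

lemma norm_charFun_le {T ξ : ℝ} (hT : 0 ≤ T) (hξ : ξ ≠ 0) :
    ‖charFun (volume.restrict (Ioc 0 T)) ξ‖ ≤ 2 / |ξ| := by
  rw [charFun_apply_real, ← intervalIntegral.integral_of_le hT]
  have hc : (ξ : ℂ) * I ≠ 0 := mul_ne_zero (by exact_mod_cast hξ) I_ne_zero
  have h1 : ∫ x in (0 : ℝ)..T, cexp (ξ * x * I) = ∫ x in (0 : ℝ)..T, cexp ((ξ * I) * x) := by
    refine intervalIntegral.integral_congr fun x _ => ?_
    congr 1
    ring
  rw [h1, integral_exp_mul_complex hc, norm_div, norm_mul, Complex.norm_real, norm_I, mul_one,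
    Real.norm_eq_abs]
  gcongr
  refine (norm_sub_le _ _).trans ?_
  have e1 : ∀ x : ℝ, ‖cexp (ξ * I * x)‖ = 1 := by
    intro x
    have : (ξ * I * x : ℂ) = ((ξ * x : ℝ) : ℂ) * I := by push_cast; ring
    rw [this, Complex.norm_exp_ofReal_mul_I]
  rw [e1, e1]
  norm_num

/-- mean value theorem for real coefficients of arbitrary sign -/
theorem mean_value {T H F : ℝ} (hT : 0 ≤ T) (hH : 1 ≤ H) {f : DP}
    (hf : ∀ n, f.coeff n ≠ 0 → 1 ≤ n ∧ (n : ℝ) ≤ H) (hF : ∀ n, |f.coeff n| ≤ F) :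
    |(∫ t in (0 : ℝ)..T, ‖ev t f‖ ^ 2) - T * BK K1 f f| ≤ 8 * (F * H) ^ 2 := by
  classical
  set ν : Measure ℝ := volume.restrict (Ioc 0 T) with hν
  have hν1 : ν.real univ = T := by
    rw [hν, measureReal_restrict_apply MeasurableSet.univ, univ_inter, Real.volume_real_Ioc_of_le hT,
      sub_zero]
  have hF0 : 0 ≤ F := (abs_nonneg _).trans (hF 0)
  have hs : ∀ a ∈ f.coeff.support, 1 ≤ a ∧ (a : ℝ) ≤ H :=
    fun a ha => hf a (Finsupp.mem_support_iff.mp ha)
  have h1 : ∀ t : ℝ, ((‖ev t f‖ ^ 2 : ℝ) : ℂ) = ∑ a ∈ f.coeff.support, ∑ b ∈ f.coeff.support,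
      ((f.coeff a * f.coeff b : ℝ) : ℂ) *
        ((a : ℂ) ^ (-(1 / 2 + I * t : ℂ)) * conj ((b : ℂ) ^ (-(1 / 2 + I * t : ℂ)))) := by
    intro t
    have h2 : ((‖ev t f‖ ^ 2 : ℝ) : ℂ) = ev t f * conj (ev t f) := by
      rw [Complex.mul_conj, Complex.normSq_eq_norm_sq]
    rw [h2, ev_apply, map_sum, Finset.sum_mul_sum]
    refine Finset.sum_congr rfl fun a _ => Finset.sum_congr rfl fun b _ => ?_
    rw [map_mul, Complex.conj_ofReal]
    push_cast
    ring
  have h3 : ((∫ t in (0 : ℝ)..T, ‖ev t f‖ ^ 2 : ℝ) : ℂ)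
      = ∑ a ∈ f.coeff.support, ∑ b ∈ f.coeff.support, ((f.coeff a * f.coeff b : ℝ) : ℂ) *
        ((((a : ℝ) ^ (-(1 / 2) : ℝ) * (b : ℝ) ^ (-(1 / 2) : ℝ) : ℝ) : ℂ)
        * charFun ν (Real.log b - Real.log a)) := by
    have h0 : ((∫ t in (0 : ℝ)..T, ‖ev t f‖ ^ 2 : ℝ) : ℂ)
        = ∫ t in Ioc 0 T, ((‖ev t f‖ ^ 2 : ℝ) : ℂ) := by
      rw [intervalIntegral.integral_of_le hT]
      exact integral_complex_ofReal.symm
    rw [h0]
    simp_rw [h1]
    rw [integral_finsetSum _ (fun a ha => integrable_finsetSum _ (fun b hb =>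
      (integrable_term ν (hs a ha).1 (hs b hb).1).const_mul _))]
    refine Finset.sum_congr rfl fun a ha => ?_
    rw [integral_finsetSum _ (fun b hb =>
      (integrable_term ν (hs a ha).1 (hs b hb).1).const_mul _)]
    refine Finset.sum_congr rfl fun b hb => ?_
    rw [integral_const_mul, term_integral ν (hs a ha).1 (hs b hb).1]
  have h4 : ((T * BK K1 f f : ℝ) : ℂ) = ∑ a ∈ f.coeff.support, ∑ b ∈ f.coeff.support,
      ((f.coeff a * f.coeff b * (T * K1 a b) : ℝ) : ℂ) := by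
    rw [BK, pair_def, Finset.mul_sum]
    push_cast
    refine Finset.sum_congr rfl fun a _ => ?_
    rw [pair_def]
    push_cast
    rw [Finset.mul_sum, Finset.mul_sum]
    refine Finset.sum_congr rfl fun b _ => ?_
    ring
  have h5 : ‖(((∫ t in (0 : ℝ)..T, ‖ev t f‖ ^ 2) - T * BK K1 f f : ℝ) : ℂ)‖ ≤ 8 * (F * H) ^ 2 := by
    rw [Complex.ofReal_sub, h3, h4, ← Finset.sum_sub_distrib]
    simp_rw [← Finset.sum_sub_distrib]
    have h6 : ∀ a ∈ f.coeff.support, ∀ b ∈ f.coeff.support,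
        ‖((f.coeff a * f.coeff b : ℝ) : ℂ) *
          ((((a : ℝ) ^ (-(1 / 2) : ℝ) * (b : ℝ) ^ (-(1 / 2) : ℝ) : ℝ) : ℂ)
          * charFun ν (Real.log b - Real.log a))
          - ((f.coeff a * f.coeff b * (T * K1 a b) : ℝ) : ℂ)‖
        ≤ 2 * H * (F * (a : ℝ) ^ (-(1 / 2) : ℝ)) * (F * (b : ℝ) ^ (-(1 / 2) : ℝ)) := by
      intro a ha b hb
      obtain ⟨ha1, ha2⟩ := hs a ha
      obtain ⟨hb1, hb2⟩ := hs b hb
      by_cases hab : a = b
      · subst hab
        rw [sub_self, charFun_zero]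
        have e : (a : ℝ) ^ (-(1 / 2) : ℝ) * (a : ℝ) ^ (-(1 / 2) : ℝ) = (a : ℝ)⁻¹ := by
          rw [← Real.rpow_add (by exact_mod_cast ha1), ← Real.rpow_neg_one]
          norm_num
        rw [e, K1, if_pos rfl, hν1]
        have : ((f.coeff a * f.coeff a : ℝ) : ℂ) * ((((a : ℝ)⁻¹ : ℝ) : ℂ) * ((T : ℝ) : ℂ))
            - ((f.coeff a * f.coeff a * (T * (a : ℝ)⁻¹) : ℝ) : ℂ) = 0 := by
          push_cast
          ring
        rw [this, norm_zero]
        positivity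
      · rw [K1, if_neg hab]
        simp only [mul_zero, Complex.ofReal_zero, sub_zero]
        rw [norm_mul, norm_mul, Complex.norm_real, Complex.norm_real, Real.norm_eq_abs,
          Real.norm_eq_abs, abs_mul,
          abs_of_nonneg (by positivity : 0 ≤ (a : ℝ) ^ (-(1 / 2) : ℝ) * (b : ℝ) ^ (-(1 / 2) : ℝ))]
        have h7 := abs_log_sub_ge ha1 hb1 ha2 hb2 hab
        have hH0 : 0 < H := by linarith
        have h8 : 0 < |Real.log b - Real.log a| := lt_of_lt_of_le (by positivity) h7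
        have h9 : ‖charFun ν (Real.log b - Real.log a)‖ ≤ 2 * H := by
          refine (norm_charFun_le hT (abs_pos.mp h8)).trans ?_
          rw [div_le_iff₀ h8]
          rw [div_le_iff₀ hH0] at h7
          linarith
        have h10 := hF a
        have h11 := hF b
        calc |f.coeff a| * |f.coeff b| * ((a : ℝ) ^ (-(1 / 2) : ℝ) * (b : ℝ) ^ (-(1 / 2) : ℝ)
              * ‖charFun ν (Real.log b - Real.log a)‖)
            ≤ F * F * ((a : ℝ) ^ (-(1 / 2) : ℝ) * (b : ℝ) ^ (-(1 / 2) : ℝ) * (2 * H)) := by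
              gcongr
          _ = _ := by ring
    refine (norm_sum_le _ _).trans ?_
    refine (Finset.sum_le_sum fun a ha => (norm_sum_le _ _).trans
      (Finset.sum_le_sum fun b hb => h6 a ha b hb)).trans ?_
    have h7 : ∑ a ∈ f.coeff.support, ∑ b ∈ f.coeff.support,
        2 * H * (F * (a : ℝ) ^ (-(1 / 2) : ℝ)) * (F * (b : ℝ) ^ (-(1 / 2) : ℝ))
        = 2 * H * F ^ 2 * (∑ a ∈ f.coeff.support, (a : ℝ) ^ (-(1 / 2) : ℝ)) ^ 2 := by
      rw [sq (∑ a ∈ f.coeff.support, (a : ℝ) ^ (-(1 / 2) : ℝ)), Finset.sum_mul_sum, Finset.mul_sum]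
      refine Finset.sum_congr rfl fun a _ => ?_
      rw [Finset.mul_sum]
      refine Finset.sum_congr rfl fun b _ => ?_
      ring
    rw [h7]
    have h8 := sum_inv_sqrt_le hH f.coeff.support hs
    have h9 : 0 ≤ ∑ a ∈ f.coeff.support, (a : ℝ) ^ (-(1 / 2) : ℝ) :=
      Finset.sum_nonneg fun a _ => by positivity
    calc 2 * H * F ^ 2 * (∑ a ∈ f.coeff.support, (a : ℝ) ^ (-(1 / 2) : ℝ)) ^ 2
        ≤ 2 * H * F ^ 2 * (2 * Real.sqrt H) ^ 2 := by gcongr
      _ = 8 * (F * H) ^ 2 := by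
          rw [mul_pow 2 (Real.sqrt H), Real.sq_sqrt (by linarith)]
          ring
  rwa [Complex.norm_real, Real.norm_eq_abs] at h5

/-! ### the tail -/

/-- the weight -/
noncomputable def wgt (K : Ker) (T t : ℝ) : ℝ := ‖mellin (fun x => (K.phi T x : ℂ)) (1 / 2 + I * t)‖

/-- full energy on finite intervals -/
theorem energy_interval {K : Ker} {T H : ℝ} (hT : 2 * K.L ≤ T) (hH : 1 ≤ H) (hTH : 4 * K.L * H < T)
    {f : DP} (hf : ∀ n, f.coeff n ≠ 0 → 1 ≤ n ∧ (n : ℝ) ≤ H) {R : ℝ} (hR : 0 ≤ R) :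
    IntervalIntegrable (fun t : ℝ => (‖ev t f‖ * wgt K T t) ^ 2) volume 0 R ∧
    ∫ t in (0 : ℝ)..R, (‖ev t f‖ * wgt K T t) ^ 2 ≤ Real.pi * K.m2 / T * BK K1 f f := by
  have hf1 : ∀ n, f.coeff n ≠ 0 → 1 ≤ n := fun n hn => (hf n hn).1
  have hb := K.phi_bmp hT
  obtain ⟨h1, h2⟩ := mellin_plancherel (QB_int1 hb hf1) (QB_int2 hb hf1) hR
  rw [energy_QB hT hH hTH hf] at h2
  have e : ∀ t : ℝ, ‖mellin (fun x => (QB (K.phi T) f x : ℂ)) (1 / 2 + I * t)‖ ^ 2
      = (‖ev t f‖ * wgt K T t) ^ 2 := by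
    intro t
    rw [mellin_QB hb hf1, norm_mul, evs_half]
    rfl
  simp_rw [e] at h1 h2
  refine ⟨h1, h2.trans (le_of_eq ?_)⟩
  ring

theorem energy_full {K : Ker} {T H : ℝ} (hT : 2 * K.L ≤ T) (hH : 1 ≤ H) (hTH : 4 * K.L * H < T)
    {f : DP} (hf : ∀ n, f.coeff n ≠ 0 → 1 ≤ n ∧ (n : ℝ) ≤ H) :
    IntegrableOn (fun t : ℝ => (‖ev t f‖ * wgt K T t) ^ 2) (Ioi 0) ∧
    ∫ t in Ioi (0 : ℝ), (‖ev t f‖ * wgt K T t) ^ 2 ≤ Real.pi * K.m2 / T * BK K1 f f := by
  have hb : Tendsto (fun n : ℕ => (n : ℝ)) atTop atTop := tendsto_natCast_atTop_atTop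
  have key := fun n : ℕ => energy_interval hT hH hTH hf (Nat.cast_nonneg n)
  have hi : IntegrableOn (fun t : ℝ => (‖ev t f‖ * wgt K T t) ^ 2) (Ioi 0) := by
    refine integrableOn_Ioi_of_intervalIntegral_norm_bounded (Real.pi * K.m2 / T * BK K1 f f) 0
      (fun n => ?_) hb (Eventually.of_forall fun n => ?_)
    · exact (intervalIntegrable_iff_integrableOn_Ioc_of_le (Nat.cast_nonneg n)).mp (key n).1
    · refine le_trans (le_of_eq ?_) (key n).2
      refine intervalIntegral.integral_congr fun t _ => ?_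
      rw [Real.norm_eq_abs, abs_of_nonneg (by positivity)]
  refine ⟨hi, ?_⟩
  refine le_of_tendsto (intervalIntegral_tendsto_integral_Ioi 0 hi hb)
    (Eventually.of_forall fun n => (key n).2)

/-- the tail -/
theorem tail {K : Ker} {ε : ℝ} (hε : 0 < ε) (hε1 : ε ≤ 1 / 2) (hK1 : Real.pi * K.m2 ≤ 1 + ε)
    (hK2 : ∀ u : ℝ, |u| ≤ 1 → 1 - ε ≤ ∫ v, K.g v * Real.cos (u * v)) {T H F : ℝ}
    (hT : 4 * K.L ^ 2 ≤ T) (hT2 : 4 * K.L ^ 2 * K.ml / ε ≤ T) (hH : 1 ≤ H) (hTH : 4 * K.L * H < T)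
    {f : DP} (hf : ∀ n, f.coeff n ≠ 0 → 1 ≤ n ∧ (n : ℝ) ≤ H) (hF : ∀ n, |f.coeff n| ≤ F) :
    ∫ t in Ioi T, (‖ev t f‖ * wgt K T t) ^ 2
      ≤ 1 / T * (5 * ε * BK K1 f f + 8 * (F * H) ^ 2 / T) := by
  have hL := K.hL
  have hT0 : 0 < T := by nlinarith
  have hT2L : 2 * K.L ≤ T := by nlinarith
  obtain ⟨hi, hfull⟩ := energy_full hT2L hH hTH hf
  have hBK : 0 ≤ BK K1 f f := by
    have h1 := energy_QB hT2L hH hTH hf
    have h2 : BK K1 f f = ∑ h ∈ f.coeff.support, f.coeff h * (f.coeff h * (h : ℝ)⁻¹) := by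
      unfold BK
      rw [pair_def]
      refine Finset.sum_congr rfl fun h hh => ?_
      congr 1
      rw [pair_def, Finset.sum_eq_single h]
      · rw [K1, if_pos rfl]
      · intro b _ hb
        rw [K1, if_neg (Ne.symm hb), mul_zero]
      · intro hc; exact absurd hh hc
    rw [h2]
    refine Finset.sum_nonneg fun h _ => ?_
    have : f.coeff h * (f.coeff h * (h : ℝ)⁻¹) = f.coeff h ^ 2 * (h : ℝ)⁻¹ := by ring
    rw [this]
    positivity
  -- splitting
  have hsplit : ∫ t in Ioi (0 : ℝ), (‖ev t f‖ * wgt K T t) ^ 2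
      = (∫ t in (0 : ℝ)..T, (‖ev t f‖ * wgt K T t) ^ 2) + ∫ t in Ioi T, (‖ev t f‖ * wgt K T t) ^ 2 := by
    rw [intervalIntegral.integral_of_le hT0.le, ← Ioc_union_Ioi_eq_Ioi hT0.le]
    refine setIntegral_union ?_ measurableSet_Ioi (hi.mono_set ?_) (hi.mono_set ?_)
    · exact Ioc_disjoint_Ioi le_rfl
    · exact Ioc_subset_Ioi_self
    · exact Ioi_subset_Ioi hT0.le
  have hlow : ∀ t ∈ Ioc (0 : ℝ) T, (1 - 2 * ε) / T ≤ wgt K T t := by
    intro t ht
    have := K.mellin_lower hK2 hT ht.1.le ht.2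
    refine le_trans (div_le_div_of_nonneg_right ?_ hT0.le) this
    have : 4 * K.L ^ 2 * K.ml / T ≤ ε := by
      rw [div_le_iff₀ hT0]
      rw [div_le_iff₀ hε] at hT2
      linarith
    linarith
  have hc0 : 0 ≤ (1 - 2 * ε) / T := div_nonneg (by linarith) hT0.le
  have h3 : ((1 - 2 * ε) / T) ^ 2 * ∫ t in (0 : ℝ)..T, ‖ev t f‖ ^ 2
      ≤ ∫ t in (0 : ℝ)..T, (‖ev t f‖ * wgt K T t) ^ 2 := by
    rw [← intervalIntegral.integral_const_mul, intervalIntegral.integral_of_le hT0.le,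
      intervalIntegral.integral_of_le hT0.le]
    refine setIntegral_mono_on ?_ (hi.mono_set Ioc_subset_Ioi_self) measurableSet_Ioc ?_
    · have hcont : Continuous (fun t : ℝ => ((1 - 2 * ε) / T) ^ 2 * ‖ev t f‖ ^ 2) :=
        continuous_const.mul ((continuous_ev f).norm.pow 2)
      exact (hcont.integrableOn_Icc (a := 0) (b := T)).mono_set Ioc_subset_Icc_self
    · intro t ht
      have h4 := hlow t ht
      have h5 : ((1 - 2 * ε) / T) ^ 2 ≤ wgt K T t ^ 2 := by gcongr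
      rw [mul_pow, mul_comm]
      gcongr
  have hmv := (abs_le.mp (mean_value hT0.le hH hf hF)).1
  have h4 : ((1 - 2 * ε) / T) ^ 2 * (T * BK K1 f f - 8 * (F * H) ^ 2)
      ≤ ∫ t in (0 : ℝ)..T, (‖ev t f‖ * wgt K T t) ^ 2 := by
    refine le_trans ?_ h3
    apply mul_le_mul_of_nonneg_left _ (sq_nonneg _)
    linarith
  have h5 : 1 / T * ((1 - 4 * ε) * BK K1 f f - 8 * (F * H) ^ 2 / T)
      ≤ ((1 - 2 * ε) / T) ^ 2 * (T * BK K1 f f - 8 * (F * H) ^ 2) := by
    have e1 : ((1 - 2 * ε) / T) ^ 2 * (T * BK K1 f f - 8 * (F * H) ^ 2)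
        = 1 / T * ((1 - 2 * ε) ^ 2 * BK K1 f f - (1 - 2 * ε) ^ 2 * (8 * (F * H) ^ 2 / T)) := by
      field_simp
    rw [e1]
    have h6 : (1 - 4 * ε) * BK K1 f f ≤ (1 - 2 * ε) ^ 2 * BK K1 f f := by
      gcongr
      nlinarith
    have h7 : (1 - 2 * ε) ^ 2 * (8 * (F * H) ^ 2 / T) ≤ 8 * (F * H) ^ 2 / T := by
      refine mul_le_of_le_one_left (by positivity) ?_
      nlinarith
    gcongr
  have h6 : Real.pi * K.m2 / T * BK K1 f f ≤ 1 / T * ((1 + ε) * BK K1 f f) := by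
    have : Real.pi * K.m2 / T * BK K1 f f = 1 / T * (Real.pi * K.m2 * BK K1 f f) := by ring
    rw [this]
    gcongr
  have h7 : ∫ t in Ioi T, (‖ev t f‖ * wgt K T t) ^ 2
      ≤ 1 / T * ((1 + ε) * BK K1 f f) - 1 / T * ((1 - 4 * ε) * BK K1 f f - 8 * (F * H) ^ 2 / T) := by
    linarith
  refine h7.trans (le_of_eq ?_)
  ring

end Pool.Agent.Lib.MP_f9aece_nt_h85
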