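import Mathlib
import Pool.Agent.Lib.MP_f9aece_nt_h85.Tail

/-!
The bad set: energy of a Dirichlet polynomial on the complement of the set where the mollified zeta
function and the prime sums are small.
-/

set_option autoImplicit false

namespace Pool.Agent.Lib.MP_f9aece_nt_h85

open MeasureTheory Set Filter Topology Complex
open scoped ENNReal
open Pool.Agent.Lib.MP_f9aece_nt
open Pool.Agent.Lib.MP_f9aece_nt_h97
open Pool.Agent.Lib.MP_f9aece_nt_h97.Ker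

/-- the good set -/
def GG (T W : ℝ) (d : DP) (J : ℕ) (P : ℕ → DP) (R : ℕ → ℝ) : Set ℝ :=
  {t | t ∈ Icc 0 T ∧ ‖riemannZeta (1 / 2 + I * t) * ev t d‖ ≤ W ∧ ∀ j < J, ‖ev t (P j)‖ ≤ R j}

lemma GG_subset (T W : ℝ) (d : DP) (J : ℕ) (P : ℕ → DP) (R : ℕ → ℝ) :
    GG T W d J P R ⊆ Icc 0 T := fun _ ht => ht.1

lemma isClosed_GG (T W : ℝ) (d : DP) (J : ℕ) (P : ℕ → DP) (R : ℕ → ℝ) :
    IsClosed (GG T W d J P R) := by
  have h1 : IsClosed {t : ℝ | ‖riemannZeta (1 / 2 + I * t) * ev t d‖ ≤ W} :=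
    isClosed_le (continuous_zeta.mul (continuous_ev d)).norm continuous_const
  have h2 : IsClosed {t : ℝ | ∀ j < J, ‖ev t (P j)‖ ≤ R j} := by
    have : {t : ℝ | ∀ j < J, ‖ev t (P j)‖ ≤ R j} = ⋂ j, ⋂ (_ : j < J), {t : ℝ | ‖ev t (P j)‖ ≤ R j} := by
      ext t; simp
    rw [this]
    exact isClosed_iInter fun j => isClosed_iInter fun _ =>
      isClosed_le (continuous_ev (P j)).norm continuous_const
  exact isClosed_Icc.inter (h1.inter h2)

lemma measurableSet_GG (T W : ℝ) (d : DP) (J : ℕ) (P : ℕ → DP) (R : ℕ → ℝ) :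
    MeasurableSet (GG T W d J P R) := (isClosed_GG T W d J P R).measurableSet

/-- energy of zeta times a Dirichlet polynomial -/
theorem zeta_energy {K : Ker} {T : ℝ} (hT : 2 * K.L ≤ T) {D : DP}
    (hD : ∀ n, D.coeff n ≠ 0 → 1 ≤ n) :
    IntegrableOn (fun t : ℝ => (‖riemannZeta (1 / 2 + I * t) * ev t D‖ * wgt K T t) ^ 2) (Icc 0 T) ∧
    ∫ t in Icc 0 T, (‖riemannZeta (1 / 2 + I * t) * ev t D‖ * wgt K T t) ^ 2
      ≤ Real.pi * ∫ x in Ioi (0 : ℝ), QQ (K.phi T) D x ^ 2 := by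
  have hL := K.hL
  have hT0 : 0 < T := by linarith
  obtain ⟨h1, h2⟩ := mellin_plancherel (K.QQ_int1 hT hD) (K.QQ_int2 hT hD) hT0.le
  have e : ∀ t ∈ Ioc (0 : ℝ) T, ‖mellin (fun x => (QQ (K.phi T) D x : ℂ)) (1 / 2 + I * t)‖ ^ 2
      = (‖riemannZeta (1 / 2 + I * t) * ev t D‖ * wgt K T t) ^ 2 := by
    intro t ht
    rw [K.mellin_QQ hT hD ht.1, norm_mul, norm_mul, norm_mul]
    unfold wgt
    ring
  rw [intervalIntegrable_iff_integrableOn_Ioc_of_le hT0.le] at h1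
  rw [intervalIntegral.integral_of_le hT0.le, setIntegral_congr_fun measurableSet_Ioc e] at h2
  have h3 := IntegrableOn.congr_fun h1 e measurableSet_Ioc
  rw [integrableOn_Icc_iff_integrableOn_Ioc, integral_Icc_eq_integral_Ioc]
  exact ⟨h3, h2⟩

/-- the energy of `f` on the bad set -/
theorem bad_set {K : Ker} {T H W : ℝ} (hT : 2 * K.L ≤ T) (hH : 1 ≤ H) (hTH : 4 * K.L * H < T)
    (hW : 0 < W) {f d : DP} {J : ℕ} {P : ℕ → DP} {R : ℕ → ℝ} {M : ℕ → ℕ} (hR : ∀ j < J, 0 < R j)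
    (hf : ∀ n, f.coeff n ≠ 0 → 1 ≤ n ∧ (n : ℝ) ≤ H)
    (hfd : ∀ n, (f * d).coeff n ≠ 0 → 1 ≤ n)
    (hfP : ∀ j < J, ∀ n, (f * P j ^ M j).coeff n ≠ 0 → 1 ≤ n ∧ (n : ℝ) ≤ H) :
    IntegrableOn (fun t : ℝ => (‖ev t f‖ * wgt K T t) ^ 2) (Icc 0 T) ∧
    ∫ t in Icc 0 T \ GG T W d J P R, (‖ev t f‖ * wgt K T t) ^ 2
      ≤ (W ^ 2)⁻¹ * (Real.pi * ∫ x in Ioi (0 : ℝ), QQ (K.phi T) (f * d) x ^ 2)
        + ∑ j ∈ Finset.range J, (R j ^ (2 * M j))⁻¹
          * (Real.pi * K.m2 / T * BK K1 (f * P j ^ M j) (f * P j ^ M j)) := by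
  have hL := K.hL
  have hT0 : 0 < T := by linarith
  obtain ⟨hf1, -⟩ := energy_full hT hH hTH hf
  have hsub : IntegrableOn (fun t : ℝ => (‖ev t f‖ * wgt K T t) ^ 2) (Icc 0 T) := by
    rw [integrableOn_Icc_iff_integrableOn_Ioc]
    exact hf1.mono_set Ioc_subset_Ioi_self
  refine ⟨hsub, ?_⟩
  obtain ⟨hz1, hz2⟩ := zeta_energy hT hfd
  have hP : ∀ j < J, IntegrableOn (fun t : ℝ => (‖ev t (f * P j ^ M j)‖ * wgt K T t) ^ 2) (Icc 0 T) ∧
      ∫ t in Icc 0 T, (‖ev t (f * P j ^ M j)‖ * wgt K T t) ^ 2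
        ≤ Real.pi * K.m2 / T * BK K1 (f * P j ^ M j) (f * P j ^ M j) := by
    intro j hj
    obtain ⟨h1, h2⟩ := energy_full hT hH hTH (hfP j hj)
    rw [integrableOn_Icc_iff_integrableOn_Ioc, integral_Icc_eq_integral_Ioc]
    refine ⟨h1.mono_set Ioc_subset_Ioi_self, le_trans ?_ h2⟩
    refine setIntegral_mono_set h1 ?_ (LE.le.eventuallyLE Ioc_subset_Ioi_self)
    exact Eventually.of_forall fun t => sq_nonneg _
  set S := Icc 0 T \ GG T W d J P R with hS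
  have hSm : MeasurableSet S := measurableSet_Icc.diff (measurableSet_GG T W d J P R)
  have hSI : S ⊆ Icc 0 T := sdiff_subset
  have hz : IntegrableOn (fun t : ℝ => (W ^ 2)⁻¹ *
      (‖riemannZeta (1 / 2 + I * t) * ev t (f * d)‖ * wgt K T t) ^ 2) (Icc 0 T) := hz1.const_mul _
  have hPs : IntegrableOn (fun t : ℝ => ∑ j ∈ Finset.range J, (R j ^ (2 * M j))⁻¹
      * (‖ev t (f * P j ^ M j)‖ * wgt K T t) ^ 2) (Icc 0 T) := by
    refine integrable_finsetSum _ fun j hj => ?_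
    exact ((hP j (Finset.mem_range.mp hj)).1).const_mul _
  have hpt : ∀ t ∈ S, (‖ev t f‖ * wgt K T t) ^ 2
      ≤ (W ^ 2)⁻¹ * (‖riemannZeta (1 / 2 + I * t) * ev t (f * d)‖ * wgt K T t) ^ 2
        + ∑ j ∈ Finset.range J, (R j ^ (2 * M j))⁻¹
          * (‖ev t (f * P j ^ M j)‖ * wgt K T t) ^ 2 := by
    intro t ht
    have hA : 0 ≤ (W ^ 2)⁻¹ * (‖riemannZeta (1 / 2 + I * t) * ev t (f * d)‖ * wgt K T t) ^ 2 := by
      positivity
    have hB : ∀ j ∈ Finset.range J, 0 ≤ (R j ^ (2 * M j))⁻¹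
        * (‖ev t (f * P j ^ M j)‖ * wgt K T t) ^ 2 := by
      intro j hj
      have := hR j (Finset.mem_range.mp hj)
      positivity
    have hng : ¬ (‖riemannZeta (1 / 2 + I * t) * ev t d‖ ≤ W ∧ ∀ j < J, ‖ev t (P j)‖ ≤ R j) := by
      intro hc
      exact ht.2 ⟨ht.1, hc⟩
    by_cases h1 : ‖riemannZeta (1 / 2 + I * t) * ev t d‖ ≤ W
    · have h2 : ∃ j < J, R j < ‖ev t (P j)‖ := by
        by_contra hc
        push Not at hc
        exact hng ⟨h1, hc⟩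
      obtain ⟨j, hj, hjR⟩ := h2
      have hRj := hR j hj
      have h3 : (‖ev t f‖ * wgt K T t) ^ 2
          ≤ (R j ^ (2 * M j))⁻¹ * (‖ev t (f * P j ^ M j)‖ * wgt K T t) ^ 2 := by
        rw [map_mul, map_pow, norm_mul, norm_pow]
        have h4 : R j ^ (2 * M j) ≤ ‖ev t (P j)‖ ^ (2 * M j) := by gcongr
        rw [inv_mul_eq_div, le_div_iff₀ (by positivity)]
        calc (‖ev t f‖ * wgt K T t) ^ 2 * R j ^ (2 * M j)
            ≤ (‖ev t f‖ * wgt K T t) ^ 2 * ‖ev t (P j)‖ ^ (2 * M j) := by gcongr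
          _ = _ := by ring
      refine h3.trans ?_
      have h5 := Finset.single_le_sum hB (Finset.mem_range.mpr hj)
      linarith
    · push Not at h1
      have h3 : (‖ev t f‖ * wgt K T t) ^ 2
          ≤ (W ^ 2)⁻¹ * (‖riemannZeta (1 / 2 + I * t) * ev t (f * d)‖ * wgt K T t) ^ 2 := by
        have e1 : ‖riemannZeta (1 / 2 + I * t) * ev t (f * d)‖
            = ‖riemannZeta (1 / 2 + I * t) * ev t d‖ * ‖ev t f‖ := by
          rw [map_mul, norm_mul, norm_mul, norm_mul]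
          ring
        rw [e1]
        have h4 : W ^ 2 ≤ ‖riemannZeta (1 / 2 + I * t) * ev t d‖ ^ 2 := by gcongr
        rw [inv_mul_eq_div, le_div_iff₀ (by positivity)]
        calc (‖ev t f‖ * wgt K T t) ^ 2 * W ^ 2
            ≤ (‖ev t f‖ * wgt K T t) ^ 2 * ‖riemannZeta (1 / 2 + I * t) * ev t d‖ ^ 2 := by gcongr
          _ = _ := by ring
      have h5 := Finset.sum_nonneg hB
      linarith
  calc ∫ t in S, (‖ev t f‖ * wgt K T t) ^ 2
      ≤ ∫ t in S, ((W ^ 2)⁻¹ * (‖riemannZeta (1 / 2 + I * t) * ev t (f * d)‖ * wgt K T t) ^ 2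
        + ∑ j ∈ Finset.range J, (R j ^ (2 * M j))⁻¹
          * (‖ev t (f * P j ^ M j)‖ * wgt K T t) ^ 2) :=
        setIntegral_mono_on (hsub.mono_set hSI) ((hz.add hPs).mono_set hSI) hSm hpt
    _ ≤ ∫ t in Icc 0 T, ((W ^ 2)⁻¹ * (‖riemannZeta (1 / 2 + I * t) * ev t (f * d)‖ * wgt K T t) ^ 2
        + ∑ j ∈ Finset.range J, (R j ^ (2 * M j))⁻¹
          * (‖ev t (f * P j ^ M j)‖ * wgt K T t) ^ 2) := by
        refine setIntegral_mono_set (hz.add hPs) ?_ (LE.le.eventuallyLE hSI)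
        refine Eventually.of_forall fun t => ?_
        refine add_nonneg (by positivity) (Finset.sum_nonneg fun j hj => ?_)
        have := hR j (Finset.mem_range.mp hj)
        positivity
    _ = (W ^ 2)⁻¹ * (∫ t in Icc 0 T,
          (‖riemannZeta (1 / 2 + I * t) * ev t (f * d)‖ * wgt K T t) ^ 2)
        + ∑ j ∈ Finset.range J, (R j ^ (2 * M j))⁻¹
          * ∫ t in Icc 0 T, (‖ev t (f * P j ^ M j)‖ * wgt K T t) ^ 2 := by
        rw [integral_add hz hPs, integral_const_mul, integral_finsetSum]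
        · congr 1
          refine Finset.sum_congr rfl fun j _ => ?_
          rw [integral_const_mul]
        · intro j hj
          exact ((hP j (Finset.mem_range.mp hj)).1).const_mul _
    _ ≤ _ := by
        gcongr with j hj
        · have := hR j (Finset.mem_range.mp hj)
          positivity
        · exact (hP j (Finset.mem_range.mp hj)).2

end Pool.Agent.Lib.MP_f9aece_nt_h85
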