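import Mathlib
import Pool.Agent.Lib.MP_f9aece_nt_h85.RoughSums
import Pool.Agent.Lib.MP_f9aece_nt_h5.MeanB
import Pool.Agent.Lib.MP_f9aece_nt_h22.LongEnergy

/-!
Lengths and coefficients of the polynomials of the lower bound near `β = 2`, and the energies of
zeta times these polynomials.
-/

set_option autoImplicit false

namespace Pool.Agent.Lib.MP_f9aece_nt_h85

open MeasureTheory Set Filter Topology
open Pool.Agent.Lib.MP_f9aece_nt
open Pool.Agent.Lib.MP_f9aece_nt_h97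
open Pool.Agent.Lib.MP_f9aece_nt_h5

/-! ### lengths and coefficients -/

/-- `f` is dominated by a nonnegative polynomial of length `exp lam` with coefficient sum at most
`exp b` -/
def DLB (f : DP) (lam b : ℝ) : Prop :=
  ∃ g : DP, Dom f g ∧ Cone (Len lam) g ∧ aug g ≤ Real.exp b

lemma DLB.mul {f g : DP} {l l' b b' : ℝ} (hf : DLB f l b) (hg : DLB g l' b') :
    DLB (f * g) (l + l') (b + b') := by
  obtain ⟨F, h1, h2, h3⟩ := hf
  obtain ⟨G, h4, h5, h6⟩ := hg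
  refine ⟨F * G, h1.mul h4, h2.mul h5 fun x hx y hy => Len.mul hx hy, ?_⟩
  rw [aug_mul, Real.exp_add]
  exact mul_le_mul h3 h6 (aug_nonneg h5) (Real.exp_pos _).le

lemma DLB.mono {f : DP} {l l' b b' : ℝ} (hf : DLB f l b) (hl : l ≤ l') (hb : b ≤ b') :
    DLB f l' b' := by
  obtain ⟨F, h1, h2, h3⟩ := hf
  exact ⟨F, h1, h2.mono (Len.mono hl), h3.trans (Real.exp_le_exp.mpr hb)⟩

lemma DLB.nrm_le {f : DP} {l b : ℝ} (hf : DLB f l b) : nrm f ≤ Real.exp b := by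
  obtain ⟨F, h1, _, h3⟩ := hf
  exact (nrm_le_aug h1).trans h3

lemma abs_coeff_le_nrm (f : DP) (n : ℕ) : |f.coeff n| ≤ nrm f := by
  unfold nrm
  by_cases h : f.coeff n = 0
  · rw [h, abs_zero]
    exact Finset.sum_nonneg fun _ _ => abs_nonneg _
  · exact Finset.single_le_sum (f := fun n => |f.coeff n|) (fun _ _ => abs_nonneg _)
      (Finsupp.mem_support_iff.mpr h)

lemma DLB.coeff_le {f : DP} {l b : ℝ} (hf : DLB f l b) (n : ℕ) : |f.coeff n| ≤ Real.exp b :=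
  (abs_coeff_le_nrm f n).trans hf.nrm_le

lemma DLB.supp {f : DP} {l b : ℝ} (hf : DLB f l b) :
    ∀ n, f.coeff n ≠ 0 → 1 ≤ n ∧ (n : ℝ) ≤ Real.exp l := by
  obtain ⟨F, h1, h2, _⟩ := hf
  exact sup_len_floor (h1.sup h2)

lemma DLB.DD {Y : ℝ} (hY : 0 < Y) (m p0 : ℕ) {c : ℝ} (hc : |c| ≤ 1) (J : ℕ) :
    DLB (DD m p0 c Y J) (2 * m * Y) (J + 2 * m * Y) := by
  refine ⟨Bm m p0 1 Y J, ?_, cone_B hY zero_le_one J, aug_B hY zero_le_one le_rfl J⟩
  exact Dom.prod _ fun j _ => dom_expo (prime_sc j) hc _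

lemma DLB.PPow {Y : ℝ} (hY : 0 < Y) (m p0 j : ℕ) :
    DLB (PP (sc Y p0 j) ^ Mm m j) (m * Y) (m * Y) := by
  have h := lenM_le (m := m) hY j
  refine ⟨PP (sc Y p0 j) ^ Mm m j, dom_self (cone_pow_block hY (Mm m j) j),
    (cone_pow_block hY (Mm m j) j).mono (Len.mono h), ?_⟩
  exact (aug_pow_block (Mm m j) j).trans (Real.exp_le_exp.mpr h)

/-- support and coefficient bounds -/
def Bd (f : DP) (H F : ℝ) : Prop :=
  (∀ n, f.coeff n ≠ 0 → 1 ≤ n ∧ (n : ℝ) ≤ H) ∧ ∀ n, |f.coeff n| ≤ F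

lemma Bd.mono {f : DP} {H H' F F' : ℝ} (h : Bd f H F) (hH : H ≤ H') (hF : F ≤ F') : Bd f H' F' :=
  ⟨fun n hn => ⟨(h.1 n hn).1, (h.1 n hn).2.trans hH⟩, fun n => (h.2 n).trans hF⟩

lemma DLB.bd {f : DP} {l b : ℝ} (hf : DLB f l b) : Bd f (Real.exp l) (Real.exp b) :=
  ⟨hf.supp, hf.coeff_le⟩

/-- product of a `0-1` polynomial and a dominated polynomial -/
lemma bd_rz_mul {p0 : ℕ} {Y z : ℝ} (hz : 0 ≤ z) {f : DP} {l b : ℝ} (hf : DLB f l b) :
    Bd (rz p0 Y z * f) (z * Real.exp l) (Real.exp b) := by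
  constructor
  · have h1 : Sup {n : ℕ | 1 ≤ n ∧ (n : ℝ) ≤ z} (rz p0 Y z) := by
      intro n hn
      rw [coeff_rz] at hn
      split_ifs at hn with h
      · have := (mem_rset.mp h).1
        exact ⟨this.1, (Nat.le_floor_iff hz).mp this.2⟩
      · exact absurd rfl hn
    have h2 : Sup {n : ℕ | 1 ≤ n ∧ (n : ℝ) ≤ Real.exp l} f := fun n hn => hf.supp n hn
    have h3 : Sup {n : ℕ | 1 ≤ n ∧ (n : ℝ) ≤ z * Real.exp l} (rz p0 Y z * f) := by
      refine h1.mul h2 ?_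
      intro x hx y hy
      refine ⟨Nat.one_le_iff_ne_zero.mpr (Nat.mul_ne_zero (by have := hx.1; omega)
        (by have := hy.1; omega)), ?_⟩
      push_cast
      exact mul_le_mul hx.2 hy.2 (Nat.cast_nonneg _) hz
    exact fun n hn => h3 n hn
  · intro n
    rw [mul_comm, coeff_eq_pair, pair_mul, pair_def]
    refine le_trans ?_ hf.nrm_le
    unfold nrm
    refine (Finset.abs_sum_le_sum_abs _ _).trans (Finset.sum_le_sum fun a ha => ?_)
    rw [abs_mul]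
    refine mul_le_of_le_one_right (abs_nonneg _) ?_
    have ha1 : 1 ≤ a := (hf.supp a (Finsupp.mem_support_iff.mp ha)).1
    rw [pair_rz, Finset.sum_ite, Finset.sum_const_zero, add_zero, Finset.sum_const, nsmul_eq_mul,
      mul_one, abs_of_nonneg (Nat.cast_nonneg _)]
    have h1 : ((rset p0 Y z).filter fun b => a * b = n).card ≤ 1 := by
      rw [Finset.card_le_one]
      intro x hx y hy
      have hx2 := (Finset.mem_filter.mp hx).2
      have hy2 := (Finset.mem_filter.mp hy).2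
      exact Nat.eq_of_mul_eq_mul_left (by omega) (hx2.trans hy2.symm)
    exact_mod_cast h1

section polys

variable {Y : ℝ} (hY : 0 < Y) (m p0 J : ℕ) {α : ℝ} (hα : |α| ≤ 1) {z : ℝ} (hz : 1 ≤ z)

include hY hα

lemma dlb_a : DLB (DD m p0 (-α) Y J) (2 * m * Y) (J + 2 * m * Y) :=
  DLB.DD hY m p0 (by rwa [abs_neg]) J

lemma dlb_ea : DLB (DD m p0 1 Y J * DD m p0 (-α) Y J) (4 * m * Y) (2 * J + 4 * m * Y) :=
  ((DLB.DD hY m p0 (by rw [abs_one]) J).mul (dlb_a hY m p0 J hα)).mono (by linarith) (by linarith)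

lemma dlb_ead : DLB (DD m p0 1 Y J * DD m p0 (-α) Y J * DD m p0 (-1) Y J) (6 * m * Y)
    (3 * J + 6 * m * Y) :=
  ((dlb_ea hY m p0 J hα).mul (DLB.DD hY m p0 (by rw [abs_neg, abs_one]) J)).mono
    (by linarith) (by linarith)

lemma dlb_eaP (j : ℕ) : DLB (DD m p0 1 Y J * DD m p0 (-α) Y J * PP (sc Y p0 j) ^ Mm m j)
    (5 * m * Y) (2 * J + 5 * m * Y) :=
  ((dlb_ea hY m p0 J hα).mul (DLB.PPow hY m p0 j)).mono (by linarith) (by linarith)

include hz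

theorem bd_a : Bd (DD m p0 (-α) Y J) (z * Real.exp (8 * m * Y)) (Real.exp (3 * J + 8 * m * Y)) := by
  have hmY : 0 ≤ (m : ℝ) * Y := by positivity
  have hJ : (0 : ℝ) ≤ J := Nat.cast_nonneg J
  refine (dlb_a hY m p0 J hα).bd.mono ?_ (Real.exp_le_exp.mpr (by linarith))
  calc Real.exp (2 * m * Y) ≤ Real.exp (8 * m * Y) := Real.exp_le_exp.mpr (by linarith)
    _ ≤ z * Real.exp (8 * m * Y) := le_mul_of_one_le_left (Real.exp_pos _).le hz

omit hα in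
theorem bd_c : Bd (rz p0 Y z * DD m p0 1 Y J) (z * Real.exp (8 * m * Y))
    (Real.exp (3 * J + 8 * m * Y)) := by
  have hmY : 0 ≤ (m : ℝ) * Y := by positivity
  have hJ : (0 : ℝ) ≤ J := Nat.cast_nonneg J
  refine (bd_rz_mul (by linarith) (DLB.DD hY m p0 (c := 1) (by rw [abs_one]) J)).mono ?_
    (Real.exp_le_exp.mpr (by linarith))
  gcongr
  linarith

theorem bd_ac : Bd (DD m p0 (-α) Y J * (rz p0 Y z * DD m p0 1 Y J)) (z * Real.exp (8 * m * Y))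
    (Real.exp (3 * J + 8 * m * Y)) := by
  have hmY : 0 ≤ (m : ℝ) * Y := by positivity
  have hJ : (0 : ℝ) ≤ J := Nat.cast_nonneg J
  have e : DD m p0 (-α) Y J * (rz p0 Y z * DD m p0 1 Y J)
      = rz p0 Y z * (DD m p0 1 Y J * DD m p0 (-α) Y J) := by ring
  rw [e]
  refine (bd_rz_mul (by linarith) (dlb_ea hY m p0 J hα)).mono ?_
    (Real.exp_le_exp.mpr (by linarith))
  gcongr
  linarith

theorem bd_acd : Bd (DD m p0 (-α) Y J * (rz p0 Y z * DD m p0 1 Y J) * DD m p0 (-1) Y J)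
    (z * Real.exp (8 * m * Y)) (Real.exp (3 * J + 8 * m * Y)) := by
  have hmY : 0 ≤ (m : ℝ) * Y := by positivity
  have hJ : (0 : ℝ) ≤ J := Nat.cast_nonneg J
  have e : DD m p0 (-α) Y J * (rz p0 Y z * DD m p0 1 Y J) * DD m p0 (-1) Y J
      = rz p0 Y z * (DD m p0 1 Y J * DD m p0 (-α) Y J * DD m p0 (-1) Y J) := by ring
  rw [e]
  refine (bd_rz_mul (by linarith) (dlb_ead hY m p0 J hα)).mono ?_
    (Real.exp_le_exp.mpr (by linarith))
  gcongr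
  linarith

theorem bd_acP (j : ℕ) :
    Bd (DD m p0 (-α) Y J * (rz p0 Y z * DD m p0 1 Y J) * PP (sc Y p0 j) ^ Mm m j)
      (z * Real.exp (8 * m * Y)) (Real.exp (3 * J + 8 * m * Y)) := by
  have hmY : 0 ≤ (m : ℝ) * Y := by positivity
  have hJ : (0 : ℝ) ≤ J := Nat.cast_nonneg J
  have e : DD m p0 (-α) Y J * (rz p0 Y z * DD m p0 1 Y J) * PP (sc Y p0 j) ^ Mm m j
      = rz p0 Y z * (DD m p0 1 Y J * DD m p0 (-α) Y J * PP (sc Y p0 j) ^ Mm m j) := by ring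
  rw [e]
  refine (bd_rz_mul (by linarith) (dlb_eaP hY m p0 J hα j)).mono ?_
    (Real.exp_le_exp.mpr (by linarith))
  gcongr
  linarith

end polys

/-! ### energies -/

/-- energy of zeta times a polynomial, in terms of its forms -/
theorem energy_one (K : Ker) {ε : ℝ} (hε : 0 < ε) (hε2 : ε < 1 / 2) :
    ∃ C T0 : ℝ, 0 ≤ C ∧ 1 ≤ T0 ∧ ∀ T : ℝ, T0 ≤ T → ∀ (g : DP) (F : ℝ), 0 ≤ F →
    Bd g (T ^ (1 / 2 - ε)) F →
    Real.pi * ∫ x in Ioi (0 : ℝ), QQ (K.phi T) g x ^ 2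
      ≤ 1 / T * (C * ((1 + Real.log T) * |BK K2 g g| + |BK KL g g|)
        + C * F ^ 2 * T ^ (-(ε / 8))) := by
  obtain ⟨C, T0, hC, hT0, h⟩ := MP_f9aece_nt_h22.long_energy K hε hε2
  have hm2 := K.m2_nonneg
  have hpi := Real.pi_pos
  refine ⟨Real.pi * (K.m2 + C), T0, by positivity, hT0, ?_⟩
  intro T hT g F hF hg
  have hT1 : 1 ≤ T := hT0.trans hT
  have hTp : 0 < T := by linarith
  have hlog : 0 ≤ Real.log T := Real.log_nonneg hT1
  obtain ⟨-, h2⟩ := h T hT g F hF hg.2 hg.1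
  set S := BK K2 g g with hS
  set G := BK KL g g with hG
  have a1 : Real.log T * S ≤ Real.log T * |S| := by gcongr; exact le_abs_self _
  have a2 := neg_abs_le G
  have hF2 : 0 ≤ F ^ 2 * T ^ (-(ε / 8)) := by positivity
  have hS0 := abs_nonneg S
  have hG0 := abs_nonneg G
  have h3 : K.m2 * (Real.log T * S - G) + C * |S| + C * F ^ 2 * T ^ (-(ε / 8))
      ≤ (K.m2 + C) * ((1 + Real.log T) * |S| + |G|) + (K.m2 + C) * F ^ 2 * T ^ (-(ε / 8)) := by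
    have b1 : K.m2 * (Real.log T * S - G) ≤ K.m2 * (Real.log T * |S| + |G|) := by
      gcongr
      linarith
    have b2 : 0 ≤ C * (Real.log T * |S| + |G|) := by positivity
    have b3 : 0 ≤ K.m2 * |S| := by positivity
    have b4 : 0 ≤ K.m2 * (F ^ 2 * T ^ (-(ε / 8))) := by positivity
    linarith
  calc Real.pi * ∫ x in Ioi (0 : ℝ), QQ (K.phi T) g x ^ 2
      ≤ Real.pi * (1 / T * (K.m2 * (Real.log T * S - G) + C * |S| + C * F ^ 2 * T ^ (-(ε / 8)))) := by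
        gcongr
    _ ≤ Real.pi * (1 / T * ((K.m2 + C) * ((1 + Real.log T) * |S| + |G|)
          + (K.m2 + C) * F ^ 2 * T ^ (-(ε / 8)))) := by
        gcongr
    _ = _ := by ring

/-- energy of zeta times `rz * g` -/
theorem energy_rz (K : Ker) {ε : ℝ} (hε : 0 < ε) (hε2 : ε < 1 / 2) :
    ∃ C T0 : ℝ, 0 ≤ C ∧ 1 ≤ T0 ∧ ∀ T : ℝ, T0 ≤ T → ∀ (p0 : ℕ) (Y z : ℝ) (g : DP) (F : ℝ),
    1 ≤ z → z ≤ T → Sup (Smo (Pst p0 Y : Set ℕ)) g → 0 ≤ F →
    Bd (rz p0 Y z * g) (T ^ (1 / 2 - ε)) F →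
    Real.pi * ∫ x in Ioi (0 : ℝ), QQ (K.phi T) (rz p0 Y z * g) x ^ 2
      ≤ 1 / T * (C * SR p0 Y z ^ 3 * ((1 + Real.log T) * |BK K2 g g| + |BK KL g g|)
        + C * F ^ 2 * T ^ (-(ε / 8))) := by
  obtain ⟨C, T0, hC, hT0, h⟩ := energy_one K hε hε2
  refine ⟨3 * C, T0, by positivity, hT0, ?_⟩
  intro T hT p0 Y z g F hz hzT hg hF hbd
  have hT1 : 1 ≤ T := hT0.trans hT
  have hTp : 0 < T := by linarith
  have hlog : 0 ≤ Real.log T := Real.log_nonneg hT1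
  have hlz : Real.log z ≤ Real.log T := Real.log_le_log (by linarith) hzT
  have hlz0 : 0 ≤ Real.log z := Real.log_nonneg hz
  have h1 := h T hT _ F hF hbd
  rw [decouple_K2 sup_rz sup_rz hg hg, decouple_KL sup_rz sup_rz hg hg] at h1
  set S := BK K2 g g with hS
  set G := BK KL g g with hG
  set X := SR p0 Y z ^ 3 with hX
  have hX0 : 0 ≤ X := pow_nonneg SR_nonneg 3
  have r1 := BK_K2_rz (p0 := p0) (Y := Y) (z := z)
  have r2 := BK_K2_rz_nonneg (p0 := p0) (Y := Y) (z := z)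
  have r3 := BK_KL_rz (p0 := p0) (Y := Y) (z := z)
  have r4 := BK_KL_rz_nonneg (p0 := p0) (Y := Y) (z := z)
  have c1 : |BK K2 (rz p0 Y z) (rz p0 Y z) * S| ≤ X * |S| := by
    rw [abs_mul, abs_of_nonneg r2]
    gcongr
  have c2 : |BK KL (rz p0 Y z) (rz p0 Y z) * S + BK K2 (rz p0 Y z) (rz p0 Y z) * G|
      ≤ 2 * Real.log T * X * |S| + X * |G| := by
    refine (abs_add_le _ _).trans (add_le_add ?_ ?_)
    · rw [abs_mul, abs_of_nonneg r4]
      refine mul_le_mul_of_nonneg_right (r3.trans ?_) (abs_nonneg _)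
      gcongr
    · rw [abs_mul, abs_of_nonneg r2]
      gcongr
  have hF2 : 0 ≤ C * F ^ 2 * T ^ (-(ε / 8)) := by positivity
  have hS0 := abs_nonneg S
  have hG0 := abs_nonneg G
  refine h1.trans ?_
  have c3 : C * ((1 + Real.log T) * |BK K2 (rz p0 Y z) (rz p0 Y z) * S|
        + |BK KL (rz p0 Y z) (rz p0 Y z) * S + BK K2 (rz p0 Y z) (rz p0 Y z) * G|)
      ≤ 3 * C * X * ((1 + Real.log T) * |S| + |G|) := by
    calc C * ((1 + Real.log T) * |BK K2 (rz p0 Y z) (rz p0 Y z) * S|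
        + |BK KL (rz p0 Y z) (rz p0 Y z) * S + BK K2 (rz p0 Y z) (rz p0 Y z) * G|)
        ≤ C * ((1 + Real.log T) * (X * |S|) + (2 * Real.log T * X * |S| + X * |G|)) := by
          gcongr
      _ = 3 * C * X * ((1 + Real.log T) * |S| + |G|) - C * X * (2 * |S| + 2 * |G|) := by ring
      _ ≤ _ := by
          have : 0 ≤ C * X * (2 * |S| + 2 * |G|) := by positivity
          linarith
  have c4 : C * F ^ 2 * T ^ (-(ε / 8)) ≤ 3 * C * F ^ 2 * T ^ (-(ε / 8)) := by linarith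
  have c5 : 0 ≤ 1 / T := by positivity
  exact mul_le_mul_of_nonneg_left (add_le_add c3 c4) c5

lemma exp_rpow_err {A Y ε x : ℝ} : Real.exp x ^ 2 * Real.exp (A * Y) ^ (-(ε / 8))
    = Real.exp (2 * x - ε / 8 * (A * Y)) := by
  rw [← Real.exp_mul, ← Real.exp_nat_mul, ← Real.exp_add]
  congr 1
  push_cast
  ring

/-- the energy of `zeta * a * c * d`, with `c = rz * e` -/
theorem energy_acd (K : Ker) {ε : ℝ} (hε : 0 < ε) (hε2 : ε < 1 / 2) :
    ∃ C T0 : ℝ, 0 ≤ C ∧ 1 ≤ T0 ∧ ∀ A Y : ℝ, 0 ≤ A → 0 < Y → T0 ≤ Real.exp (A * Y) →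
    ∀ (m p0 J : ℕ) (α z E2 EL : ℝ), |α| ≤ 1 → 1 ≤ z →
    z * Real.exp (8 * m * Y) ≤ Real.exp (A * Y) ^ (1 / 2 - ε) →
    |BK K2 (DD m p0 1 Y J * DD m p0 (-α) Y J * DD m p0 (-1) Y J)
      (DD m p0 1 Y J * DD m p0 (-α) Y J * DD m p0 (-1) Y J)| ≤ E2 →
    |BK KL (DD m p0 1 Y J * DD m p0 (-α) Y J * DD m p0 (-1) Y J)
      (DD m p0 1 Y J * DD m p0 (-α) Y J * DD m p0 (-1) Y J)| ≤ EL →
    Real.pi * ∫ x in Ioi (0 : ℝ), QQ (K.phi (Real.exp (A * Y)))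
        (DD m p0 (-α) Y J * (rz p0 Y z * DD m p0 1 Y J) * DD m p0 (-1) Y J) x ^ 2
      ≤ 1 / Real.exp (A * Y) * (C * SR p0 Y z ^ 3 * ((1 + A) * (1 + Y) * E2 + EL)
        + C * Real.exp (6 * J + 16 * m * Y - ε / 8 * (A * Y))) := by
  obtain ⟨C, T0, hC, hT0, h⟩ := energy_rz K hε hε2
  refine ⟨C, T0, hC, hT0, ?_⟩
  intro A Y hA hY hT m p0 J α z E2 EL hα hz hlen h2 hL
  have hmY : 0 ≤ (m : ℝ) * Y := by positivity
  have e : DD m p0 (-α) Y J * (rz p0 Y z * DD m p0 1 Y J) * DD m p0 (-1) Y J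
      = rz p0 Y z * (DD m p0 1 Y J * DD m p0 (-α) Y J * DD m p0 (-1) Y J) := by ring
  have hbd := (bd_acd hY m p0 J hα hz).mono hlen le_rfl
  rw [e] at hbd ⊢
  have hT1 : 1 ≤ Real.exp (A * Y) := hT0.trans hT
  have hzT : z ≤ Real.exp (A * Y) := by
    calc z ≤ z * Real.exp (8 * m * Y) :=
          le_mul_of_one_le_right (by linarith) (Real.one_le_exp (by positivity))
      _ ≤ Real.exp (A * Y) ^ (1 / 2 - ε) := hlen
      _ ≤ Real.exp (A * Y) ^ (1 : ℝ) := Real.rpow_le_rpow_of_exponent_le hT1 (by linarith)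
      _ = _ := Real.rpow_one _
  have hsup : Sup (Smo (Pst p0 Y : Set ℕ))
      (DD m p0 1 Y J * DD m p0 (-α) Y J * DD m p0 (-1) Y J) :=
    ((sup_DD' m 1 J).mul (sup_DD' m (-α) J) fun x hx y hy => mul_mem_Smo hx hy).mul
      (sup_DD' m (-1) J) fun x hx y hy => mul_mem_Smo hx hy
  have key := h _ hT p0 Y z _ _ hz hzT hsup (Real.exp_pos _).le hbd
  refine key.trans ?_
  have hSR := SR_nonneg (p0 := p0) (Y := Y) (z := z)
  have hAY : 1 + A * Y ≤ (1 + A) * (1 + Y) := by nlinarith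
  have hAY0 : 0 ≤ A * Y := by positivity
  rw [Real.log_exp]
  have hE2 : 0 ≤ E2 := (abs_nonneg _).trans h2
  have c0 : C * Real.exp (3 * J + 8 * m * Y) ^ 2 * Real.exp (A * Y) ^ (-(ε / 8))
      = C * Real.exp (6 * J + 16 * m * Y - ε / 8 * (A * Y)) := by
    rw [mul_assoc, exp_rpow_err]
    congr 3
    ring
  rw [c0]
  gcongr

/-- the energy of `zeta * a` -/
theorem energy_a (K : Ker) {ε : ℝ} (hε : 0 < ε) (hε2 : ε < 1 / 2) :
    ∃ C T0 : ℝ, 0 ≤ C ∧ 1 ≤ T0 ∧ ∀ A Y : ℝ, 0 ≤ A → 0 < Y → T0 ≤ Real.exp (A * Y) →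
    ∀ (m p0 J : ℕ) (α E2 EL : ℝ), |α| ≤ 1 →
    Real.exp (8 * m * Y) ≤ Real.exp (A * Y) ^ (1 / 2 - ε) →
    |BK K2 (DD m p0 (-α) Y J) (DD m p0 (-α) Y J)| ≤ E2 →
    |BK KL (DD m p0 (-α) Y J) (DD m p0 (-α) Y J)| ≤ EL →
    Real.pi * ∫ x in Ioi (0 : ℝ), QQ (K.phi (Real.exp (A * Y))) (DD m p0 (-α) Y J) x ^ 2
      ≤ 1 / Real.exp (A * Y) * (C * ((1 + A) * (1 + Y) * E2 + EL)
        + C * Real.exp (6 * J + 16 * m * Y - ε / 8 * (A * Y))) := by
  obtain ⟨C, T0, hC, hT0, h⟩ := energy_one K hε hε2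
  refine ⟨C, T0, hC, hT0, ?_⟩
  intro A Y hA hY hT m p0 J α E2 EL hα hlen h2 hL
  have hmY : 0 ≤ (m : ℝ) * Y := by positivity
  have hbd : Bd (DD m p0 (-α) Y J) (Real.exp (A * Y) ^ (1 / 2 - ε)) (Real.exp (3 * J + 8 * m * Y)) :=
    (bd_a hY m p0 J hα (z := 1) le_rfl).mono (by rwa [one_mul]) le_rfl
  have key := h _ hT _ _ (Real.exp_pos _).le hbd
  refine key.trans ?_
  have hAY : 1 + A * Y ≤ (1 + A) * (1 + Y) := by nlinarith
  have hAY0 : 0 ≤ A * Y := by positivity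
  rw [Real.log_exp]
  have hE2 : 0 ≤ E2 := (abs_nonneg _).trans h2
  have c0 : C * Real.exp (3 * J + 8 * m * Y) ^ 2 * Real.exp (A * Y) ^ (-(ε / 8))
      = C * Real.exp (6 * J + 16 * m * Y - ε / 8 * (A * Y)) := by
    rw [mul_assoc, exp_rpow_err]
    congr 3
    ring
  rw [c0]
  gcongr

end Pool.Agent.Lib.MP_f9aece_nt_h85
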