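import Mathlib
import Pool.Agent.Lib.MP_f9aece_nt_h85.RoughSums

/-!
Main forms of the lower bound near `β = 2`, and negligible quantities.
-/

set_option autoImplicit false

namespace Pool.Agent.Lib.MP_f9aece_nt_h85

open MeasureTheory Set Filter Topology
open Pool.Agent.Lib.MP_f9aece_nt
open Pool.Agent.Lib.MP_f9aece_nt_h97

/-- the cross form decouples -/
theorem cross_decouple {p0 : ℕ} {Y z : ℝ} {a e : DP} (ha : Sup (Smo (Pst p0 Y : Set ℕ)) a)
    (he : Sup (Smo (Pst p0 Y : Set ℕ)) e) :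
    BK (Kcs 1) a (a * (rz p0 Y z * e)) = SR p0 Y z * BK (Kcs 1) a (e * a) := by
  have e1 : a * (rz p0 Y z * e) = rz p0 Y z * (e * a) := by ring
  have h1 : Sup (Smo (Rst p0 Y)) (1 : DP) := Sup.one (one_mem_Smo _)
  have h2 : Sup (Smo (Pst p0 Y : Set ℕ)) (e * a) := he.mul ha fun x hx y hy => mul_mem_Smo hx hy
  have h := decouple (mk_Kcs le_rfl) h1 (sup_rz (z := z)) ha h2
  rw [one_mul, BK_Kcs_one_rz] at h
  rw [e1, h]

/-- the diagonal form decouples -/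
theorem diag_decouple {p0 : ℕ} {Y z : ℝ} {a e : DP} (ha : Sup (Smo (Pst p0 Y : Set ℕ)) a)
    (he : Sup (Smo (Pst p0 Y : Set ℕ)) e) :
    BK K1 (a * (rz p0 Y z * e)) (a * (rz p0 Y z * e)) = SR p0 Y z * BK K1 (e * a) (e * a) := by
  have e1 : a * (rz p0 Y z * e) = rz p0 Y z * (e * a) := by ring
  have h2 : Sup (Smo (Pst p0 Y : Set ℕ)) (e * a) := he.mul ha fun x hx y hy => mul_mem_Smo hx hy
  rw [e1, ← K1s_one, decouple (mk_K1s le_rfl) sup_rz sup_rz h2 h2, K1s_one, BK_K1_rz]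

/-- the specialised versions -/
theorem cross_DD (m p0 J : ℕ) (Y z a : ℝ) :
    BK (Kcs 1) (DD m p0 (-a) Y J) (DD m p0 (-a) Y J * (rz p0 Y z * DD m p0 1 Y J))
      = SR p0 Y z * BK (Kcs 1) (DD m p0 (-a) Y J) (DD m p0 1 Y J * DD m p0 (-a) Y J) :=
  cross_decouple (sup_DD' m (-a) J) (sup_DD' m 1 J)

theorem diag_DD (m p0 J : ℕ) (Y z a : ℝ) :
    BK K1 (DD m p0 (-a) Y J * (rz p0 Y z * DD m p0 1 Y J))
        (DD m p0 (-a) Y J * (rz p0 Y z * DD m p0 1 Y J))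
      = SR p0 Y z * BK K1 (DD m p0 1 Y J * DD m p0 (-a) Y J) (DD m p0 1 Y J * DD m p0 (-a) Y J) :=
  diag_decouple (sup_DD' m (-a) J) (sup_DD' m 1 J)

/-! ### negligible quantities -/

/-- `(1 + A Y)^2 exp (-c Y)` is small -/
lemma small_exp (A c δ : ℝ) (hc : 0 < c) (hδ : 0 < δ) :
    ∃ Y0 : ℝ, 1 ≤ Y0 ∧ ∀ Y : ℝ, Y0 ≤ Y → (1 + A * Y) ^ 2 * Real.exp (-(c * Y)) ≤ δ := by
  have h0 : Tendsto (fun Y : ℝ => Y ^ 0 * Real.exp (-c * Y)) atTop (𝓝 0) :=
    (isLittleO_pow_exp_pos_mul_atTop 0 hc).tendsto_div_nhds_zero.congr fun x => by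
      rw [div_eq_mul_inv, ← Real.exp_neg, neg_mul]
  have h1 : Tendsto (fun Y : ℝ => Y ^ 1 * Real.exp (-c * Y)) atTop (𝓝 0) :=
    (isLittleO_pow_exp_pos_mul_atTop 1 hc).tendsto_div_nhds_zero.congr fun x => by
      rw [div_eq_mul_inv, ← Real.exp_neg, neg_mul]
  have h2 : Tendsto (fun Y : ℝ => Y ^ 2 * Real.exp (-c * Y)) atTop (𝓝 0) :=
    (isLittleO_pow_exp_pos_mul_atTop 2 hc).tendsto_div_nhds_zero.congr fun x => by
      rw [div_eq_mul_inv, ← Real.exp_neg, neg_mul]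
  have h3 : Tendsto (fun Y : ℝ => (1 + A * Y) ^ 2 * Real.exp (-(c * Y))) atTop (𝓝 0) := by
    have h4 := (h0.add (h1.const_mul (2 * A))).add (h2.const_mul (A ^ 2))
    simp only [mul_zero, add_zero] at h4
    refine h4.congr fun Y => ?_
    rw [neg_mul]
    ring
  obtain ⟨Y0, hY0⟩ := ((tendsto_order.mp h3).2 δ hδ).exists_forall_of_atTop
  exact ⟨max Y0 1, le_max_right _ _, fun Y hY => (hY0 Y ((le_max_left _ _).trans hY)).le⟩

/-- with `T = exp (A Y)`, `H = z exp (8 m Y) ≤ T^(1/2 - η)`, `F = exp (3 J + 8 m Y)`: the errors are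
negligible when `η A` is large compared with `m`. -/
theorem errors_small {A η : ℝ} {m : ℕ} (hη : 24 * m + 20 ≤ η * A) (hA : 0 < A)
    (hη0 : 0 < η) (hη2 : η ≤ 1 / 2) {δ : ℝ} (hδ : 0 < δ) :
    ∃ Y0 : ℝ, 1 ≤ Y0 ∧ ∀ Y : ℝ, Y0 ≤ Y → ∀ J : ℕ, (J : ℝ) ≤ Y + 2 → ∀ H : ℝ, 1 ≤ H →
    H ≤ Real.exp (A * Y) ^ (1 / 2 - η) →
    Real.exp (3 * J + 8 * m * Y) ^ 3 * H ^ 2 * (1 + Real.log H) ^ 2 / Real.exp (A * Y) ^ 2
      ≤ δ * (1 / Real.exp (A * Y)) ∧
    (Real.exp (3 * J + 8 * m * Y) * H) ^ 2 / Real.exp (A * Y) ≤ δ := by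
  obtain ⟨Y0, h1, h2⟩ := small_exp A 1 (δ * Real.exp (-18)) one_pos (by positivity)
  refine ⟨Y0, h1, fun Y hY J hJ H hH hHT => ?_⟩
  have hY1 : 1 ≤ Y := h1.trans hY
  have hY0' : 0 < Y := by linarith
  have h3 := h2 Y hY
  rw [one_mul] at h3
  set T := Real.exp (A * Y) with hT
  have hT0 : 0 < T := Real.exp_pos _
  have hm0 : (0 : ℝ) ≤ m := Nat.cast_nonneg m
  have hH2 : H ^ 2 ≤ T * Real.exp (-(2 * η * A * Y)) := by
    have e : T * Real.exp (-(2 * η * A * Y)) = (T ^ (1 / 2 - η)) ^ 2 := by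
      rw [hT, ← Real.exp_mul, ← Real.exp_nat_mul, ← Real.exp_add]
      congr 1
      push_cast
      ring
    rw [e]
    gcongr
  have hlog0 : 0 ≤ Real.log H := Real.log_nonneg hH
  have hlog : Real.log H ≤ A * Y := by
    have h4 : H ≤ T := by
      refine hHT.trans ?_
      calc T ^ (1 / 2 - η) ≤ T ^ (1 : ℝ) :=
            Real.rpow_le_rpow_of_exponent_le (Real.one_le_exp (by positivity)) (by linarith)
        _ = T := Real.rpow_one T
    have h5 := Real.log_le_log (by linarith) h4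
    rwa [hT, Real.log_exp] at h5
  have hF3 : Real.exp (3 * J + 8 * m * Y) ^ 3 ≤ Real.exp (9 * Y + 18 + 24 * m * Y) := by
    rw [← Real.exp_nat_mul]
    apply Real.exp_le_exp.mpr
    push_cast
    linarith
  have hF2 : Real.exp (3 * J + 8 * m * Y) ^ 2 ≤ Real.exp (9 * Y + 18 + 24 * m * Y) := by
    rw [← Real.exp_nat_mul]
    apply Real.exp_le_exp.mpr
    push_cast
    nlinarith
  have hηY : (24 * m + 20) * Y ≤ η * A * Y := by gcongr
  have hcore : Real.exp (9 * Y + 18 + 24 * m * Y) * Real.exp (-(2 * η * A * Y))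
      ≤ Real.exp 18 * Real.exp (-Y) := by
    rw [← Real.exp_add, ← Real.exp_add]
    apply Real.exp_le_exp.mpr
    have : 0 ≤ (m : ℝ) * Y := by positivity
    nlinarith
  have e18 : Real.exp 18 * Real.exp (-18) = 1 := by rw [← Real.exp_add]; norm_num
  constructor
  · calc Real.exp (3 * J + 8 * m * Y) ^ 3 * H ^ 2 * (1 + Real.log H) ^ 2 / T ^ 2
        ≤ Real.exp (9 * Y + 18 + 24 * m * Y) * (T * Real.exp (-(2 * η * A * Y)))
            * (1 + A * Y) ^ 2 / T ^ 2 := by gcongr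
      _ = (Real.exp (9 * Y + 18 + 24 * m * Y) * Real.exp (-(2 * η * A * Y)))
            * (1 + A * Y) ^ 2 * (1 / T) := by field_simp
      _ ≤ (Real.exp 18 * Real.exp (-Y)) * (1 + A * Y) ^ 2 * (1 / T) := by gcongr
      _ = Real.exp 18 * ((1 + A * Y) ^ 2 * Real.exp (-Y)) * (1 / T) := by ring
      _ ≤ Real.exp 18 * (δ * Real.exp (-18)) * (1 / T) := by gcongr
      _ = (Real.exp 18 * Real.exp (-18)) * δ * (1 / T) := by ring
      _ = δ * (1 / T) := by rw [e18, one_mul]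
  · calc (Real.exp (3 * J + 8 * m * Y) * H) ^ 2 / T
        = Real.exp (3 * J + 8 * m * Y) ^ 2 * H ^ 2 / T := by rw [mul_pow]
      _ ≤ Real.exp (9 * Y + 18 + 24 * m * Y) * (T * Real.exp (-(2 * η * A * Y))) / T := by gcongr
      _ = Real.exp (9 * Y + 18 + 24 * m * Y) * Real.exp (-(2 * η * A * Y)) := by field_simp
      _ ≤ Real.exp 18 * Real.exp (-Y) := hcore
      _ ≤ Real.exp 18 * ((1 + A * Y) ^ 2 * Real.exp (-Y)) := by
          have h5 : 0 ≤ A * Y := by positivity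
          have h6 : (1 : ℝ) ≤ (1 + A * Y) ^ 2 := one_le_pow₀ (by linarith)
          have h7 := Real.exp_pos (-Y)
          gcongr
          nlinarith
      _ ≤ Real.exp 18 * (δ * Real.exp (-18)) := by gcongr
      _ = (Real.exp 18 * Real.exp (-18)) * δ := by ring
      _ = δ := by rw [e18, one_mul]

end Pool.Agent.Lib.MP_f9aece_nt_h85
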