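import Mathlib
import Pool.Agent.Lib.MP_f9aece_nt_h24.TestFn
import Pool.Agent.Lib.MP_f9aece_nt_h85.MainForms

/-!
Energy of the difference between `zeta n` and the test function, and the resulting bound for the
energy of `zeta n` on a set.
-/

set_option autoImplicit false

namespace Pool.Agent.Lib.MP_f9aece_nt_h85

open MeasureTheory Set Filter Topology Complex
open scoped ComplexConjugate
open Pool.Agent.Lib.MP_f9aece_nt
open Pool.Agent.Lib.MP_f9aece_nt_h97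
open Pool.Agent.Lib.MP_f9aece_nt_h22 (w1)

private lemma ed_split (u v : ℝ) : (u + 2 * v) ^ 2 ≤ 2 * u ^ 2 + 8 * v ^ 2 := by
  nlinarith [sq_nonneg (u - 2 * v)]

/-- the energy of `zeta a` on a set, in terms of the energy difference and of the energy of `a * c`
on this set -/
theorem level_split (K : Ker) : ∃ C : ℝ, 0 ≤ C ∧ ∀ T H F : ℝ, 2 * K.L ≤ T → 1 ≤ H →
    4 * K.L * H < T → 1 ≤ F → ∀ a c : DP, (∀ n, a.coeff n ≠ 0 → 1 ≤ n ∧ (n : ℝ) ≤ H) →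
    (∀ n, c.coeff n ≠ 0 → 1 ≤ n ∧ (n : ℝ) ≤ H) →
    (∀ n, (a * c).coeff n ≠ 0 → 1 ≤ n ∧ (n : ℝ) ≤ H) →
    (∀ n, |a.coeff n| ≤ F) → (∀ n, |c.coeff n| ≤ F) → (∀ n, |(a * c).coeff n| ≤ F) →
    ∀ B : Set ℝ, MeasurableSet B → B ⊆ Ioc 0 T →
    ∫ t in B, (‖riemannZeta (1 / 2 + I * t) * ev t a‖ * wgt K T t) ^ 2
      ≤ 2 * (Real.pi * (∫ x in Ioi (0 : ℝ), QQ (K.phi T) a x ^ 2)
          - 2 * Real.pi * (K.m2 / T) * (2 * BK (Kcs 1) a (a * c) - BK K1 (a * c) (a * c))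
          + C * (F ^ 3 * H ^ 2 * (1 + Real.log H) ^ 2 / T ^ 2))
        + 8 * ∫ t in B, (‖ev t (a * c)‖ * wgt K T t) ^ 2 := by
  obtain ⟨C0, hC0, hE⟩ := K.energy_test
  have hml := K.ml_nonneg
  have hpi := Real.pi_pos
  refine ⟨Real.pi * C0 + 8 * Real.pi * K.ml ^ 2, by positivity, ?_⟩
  intro T H F hT hH1 hH hF a c ha hc hac hFa hFc hFac B hBm hBT
  set C := Real.pi * C0 + 8 * Real.pi * K.ml ^ 2 with hC
  have hL := K.hL
  have hm2 := K.m2_nonneg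
  have hT0 : 0 < T := by linarith
  have ha1 : ∀ n, a.coeff n ≠ 0 → 1 ≤ n := fun n hn => (ha n hn).1
  have hc1 : ∀ n, c.coeff n ≠ 0 → 1 ≤ n := fun n hn => (hc n hn).1
  have hac1 : ∀ n, (a * c).coeff n ≠ 0 → 1 ≤ n := fun n hn => (hac n hn).1
  have hF0 : 0 ≤ F := by linarith
  have hlog : 0 ≤ Real.log H := Real.log_nonneg hH1
  have w1ac : w1 (a * c) ≤ F * (1 + Real.log H) := MP_f9aece_nt_h22.w1_le' hF0 hFac hac hH1
  have w1a : w1 a ≤ F * (1 + Real.log H) := MP_f9aece_nt_h22.w1_le' hF0 hFa ha hH1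
  have nc : nrm c ≤ F * H := MP_f9aece_nt_h22.nrm_le' hF0 hFc hc hH1
  have nac : nrm (a * c) ≤ F * H := MP_f9aece_nt_h22.nrm_le' hF0 hFac hac hH1
  have w1n : ∀ D : DP, 0 ≤ w1 D := fun D => by
    unfold w1; exact Finset.sum_nonneg fun _ _ => by positivity
  have hc0 : |c0 a| ≤ F * (1 + Real.log H) := (MP_f9aece_nt_h22.abs_c0_le' a).trans w1a
  set lg := 1 + Real.log H with hlg
  have hlg1 : 1 ≤ lg := by linarith
  set X := F ^ 3 * H ^ 2 * lg ^ 2 / T ^ 2 with hX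
  have hX0 : 0 ≤ X := by positivity
  set gt : ℝ → ℝ := fun x => QB (K.phi T) (a * c) x + K.VB T a c x with hgt
  have mQ := K.QQ_MPc hT ha1
  have mG : MPc gt := (K.QB_MPc hT hac1).add (K.VB_MPc (by linarith) ha1 hc1)
  set df : ℝ → ℝ := fun x => QQ (K.phi T) a x + (-1) * gt x with hdf
  have mG' := mG.const_mul (-1)
  have mD : MPc df := mQ.add mG'
  obtain ⟨pD1, pD2⟩ := mD.plancherel
  have hBI : B ⊆ Ioi (0 : ℝ) := fun t ht => (hBT ht).1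
  -- pointwise splitting
  have hmcG : ∀ t, mc (fun x => (-1) * gt x) t = - mc gt t := by
    intro t
    have h := hasMellin_const_smul (mG.conv t) (-1 : ℂ)
    unfold mc
    have e : (fun x : ℝ => (((-1) * gt x : ℝ) : ℂ)) = fun x => (-1 : ℂ) • (gt x : ℂ) := by
      funext x; push_cast; rw [smul_eq_mul]
    rw [e, h.2, smul_eq_mul, neg_one_mul]
  have hpt : ∀ t ∈ B, (‖riemannZeta (1 / 2 + I * t) * ev t a‖ * wgt K T t) ^ 2
      ≤ 2 * ‖mc df t‖ ^ 2 + 8 * (‖ev t (a * c)‖ * wgt K T t) ^ 2 := by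
    intro t ht
    have h1 : ‖riemannZeta (1 / 2 + I * t) * ev t a‖ * wgt K T t = ‖mc (QQ (K.phi T) a) t‖ := by
      rw [K.mc_QQ hT ha1 (hBI ht)]
      simp only [norm_mul]
      unfold wgt mc
      ring
    have h2 : mc (QQ (K.phi T) a) t = mc df t + mc gt t := by
      have := mQ.mc_add mG' t
      rw [hmcG] at this
      rw [hdf, this]
      ring
    have h3 := K.norm_test hT ha1 hc1 t
    have h4 : ‖mc (QQ (K.phi T) a) t‖ ≤ ‖mc df t‖ + 2 * (‖ev t (a * c)‖ * wgt K T t) := by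
      rw [h2]
      exact (norm_add_le _ _).trans (add_le_add le_rfl h3)
    have h5 : 0 ≤ ‖ev t (a * c)‖ * wgt K T t := mul_nonneg (norm_nonneg _) (norm_nonneg _)
    rw [h1]
    calc ‖mc (QQ (K.phi T) a) t‖ ^ 2 ≤ (‖mc df t‖ + 2 * (‖ev t (a * c)‖ * wgt K T t)) ^ 2 := by gcongr
      _ ≤ 2 * ‖mc df t‖ ^ 2 + 8 * (‖ev t (a * c)‖ * wgt K T t) ^ 2 := ed_split _ _
  obtain ⟨f1, -⟩ := energy_full hT hH1 hH hac
  have hi1 : IntegrableOn (fun t : ℝ => (‖riemannZeta (1 / 2 + I * t) * ev t a‖ * wgt K T t) ^ 2) B := by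
    have h := mQ.plancherel.1.mono_set hBI
    refine IntegrableOn.congr_fun h (fun t ht => ?_) hBm
    rw [K.mc_QQ hT ha1 (hBI ht)]
    simp only [norm_mul]
    unfold wgt mc
    ring
  have hi2 : IntegrableOn (fun t : ℝ => 2 * ‖mc df t‖ ^ 2) B := (pD1.mono_set hBI).const_mul 2
  have hi3 : IntegrableOn (fun t : ℝ => 8 * (‖ev t (a * c)‖ * wgt K T t) ^ 2) B :=
    (f1.mono_set hBI).const_mul 8
  have s1 : ∫ t in B, (‖riemannZeta (1 / 2 + I * t) * ev t a‖ * wgt K T t) ^ 2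
      ≤ 2 * (∫ t in B, ‖mc df t‖ ^ 2) + 8 * ∫ t in B, (‖ev t (a * c)‖ * wgt K T t) ^ 2 := by
    rw [← integral_const_mul, ← integral_const_mul, ← integral_add hi2 hi3]
    exact setIntegral_mono_on hi1 (hi2.add hi3) hBm hpt
  have s2 : ∫ t in B, ‖mc df t‖ ^ 2 ≤ Real.pi * ∫ x in Ioi (0 : ℝ), df x ^ 2 := by
    rw [← pD2]
    exact setIntegral_mono_set pD1 (Eventually.of_forall fun t => by positivity)
      (LE.le.eventuallyLE hBI)
  -- the energy difference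
  have s3 : ∫ x in Ioi (0 : ℝ), df x ^ 2 = (∫ x in Ioi (0 : ℝ), QQ (K.phi T) a x ^ 2)
      - 2 * (∫ x in Ioi (0 : ℝ), QQ (K.phi T) a x * gt x) + ∫ x in Ioi (0 : ℝ), gt x ^ 2 := by
    have i1 := mQ.mul_int mG
    have h1 : IntegrableOn (fun x : ℝ => QQ (K.phi T) a x ^ 2 - 2 * (QQ (K.phi T) a x * gt x))
        (Ioi 0) := mQ.i2.sub (i1.const_mul 2)
    rw [← integral_const_mul, ← integral_sub mQ.i2 (i1.const_mul 2), ← integral_add h1 mG.i2]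
    refine integral_congr_ae (Eventually.of_forall fun x => ?_)
    simp only [hdf]
    ring
  have e1 := K.corr_test hT hH ha1 hc1 hac
  have e2 := hE T H hT hH a c ha1 hc1 hac
  have e1' : 2 * (2 * K.ml ^ 2 / T ^ 2 * |c0 a| * nrm (a * c)) ≤ 4 * K.ml ^ 2 * X :=
    tf_num1 hT0 hF hlg1 hH1 hc0 (nrm_nonneg _) nac
  have e2' : C0 * (H / T ^ 2) * w1 (a * c) * w1 a * nrm c ≤ C0 * X :=
    tf_num2 hC0 hF0 (by linarith only [hlg1]) (by linarith only [hH1]) w1ac (w1n a) w1a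
      (nrm_nonneg c) nc
  have s4 : Real.pi * ∫ x in Ioi (0 : ℝ), df x ^ 2
      ≤ Real.pi * (∫ x in Ioi (0 : ℝ), QQ (K.phi T) a x ^ 2)
          - 2 * Real.pi * (K.m2 / T) * (2 * BK (Kcs 1) a (a * c) - BK K1 (a * c) (a * c))
          + C * X := by
    have h1 : ∫ x in Ioi (0 : ℝ), df x ^ 2 ≤ (∫ x in Ioi (0 : ℝ), QQ (K.phi T) a x ^ 2)
        - 2 * (K.m2 / T) * (2 * BK (Kcs 1) a (a * c) - BK K1 (a * c) (a * c))
        + (C0 + 8 * K.ml ^ 2) * X := by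
      rw [s3]
      linarith
    have h2 := mul_le_mul_of_nonneg_left h1 hpi.le
    refine h2.trans (le_of_eq ?_)
    rw [hC]
    ring
  have hX' : C * (F ^ 3 * H ^ 2 * lg ^ 2 / T ^ 2) = C * X := by rw [hX]
  rw [hX']
  linarith

/-- one level: energy of `zeta n` on a set, `c = rz * EI` -/
theorem level_bound (K : Ker) : ∃ C : ℝ, 0 ≤ C ∧ ∀ T H F : ℝ, 2 * K.L ≤ T → 1 ≤ T → 1 ≤ H →
    4 * K.L * H < T → 1 ≤ F → ∀ (p0 : ℕ) (Y z : ℝ) (n EI : DP),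
    Sup (Smo (Pst p0 Y : Set ℕ)) n → Sup (Smo (Pst p0 Y : Set ℕ)) EI →
    (∀ k, n.coeff k ≠ 0 → 1 ≤ k ∧ (k : ℝ) ≤ H) →
    (∀ k, (rz p0 Y z * EI).coeff k ≠ 0 → 1 ≤ k ∧ (k : ℝ) ≤ H) →
    (∀ k, (n * (rz p0 Y z * EI)).coeff k ≠ 0 → 1 ≤ k ∧ (k : ℝ) ≤ H) →
    (∀ k, |n.coeff k| ≤ F) → (∀ k, |(rz p0 Y z * EI).coeff k| ≤ F) →
    (∀ k, |(n * (rz p0 Y z * EI)).coeff k| ≤ F) →
    ∀ S W η ε Er : ℝ, 0 ≤ S → 0 ≤ η → η ≤ 1 → 0 ≤ ε →
    Real.pi * (∫ x in Ioi (0 : ℝ), QQ (K.phi T) n x ^ 2)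
      ≤ 1 / T * (Real.pi * K.m2 * (Real.log T * S) + Er) →
    W * S * (1 - η) ≤ 2 * BK (Kcs 1) n (EI * n) - BK K1 (EI * n) (EI * n) →
    (1 / 2 - ε) * Real.log T ≤ SR p0 Y z * W →
    ∀ B : Set ℝ, MeasurableSet B → B ⊆ Ioc 0 T →
    ∫ t in B, (‖riemannZeta (1 / 2 + I * t) * ev t n‖ * wgt K T t) ^ 2
      ≤ 2 * (Real.pi * K.m2 / T * (S * Real.log T * (2 * ε + η)) + Er / T
          + C * (F ^ 3 * H ^ 2 * (1 + Real.log H) ^ 2 / T ^ 2))
        + 8 * ∫ t in B, (‖ev t (n * (rz p0 Y z * EI))‖ * wgt K T t) ^ 2 := by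
  obtain ⟨C, hC, h⟩ := level_split K
  refine ⟨C, hC, ?_⟩
  intro T H F hT hT1 hH1 hH hF p0 Y z n EI hn hEI h1 h2 h3 h4 h5 h6 S W η ε Er hS hη hη1 hε hQ hE1 hW
    B hBm hBT
  have hm2 := K.m2_nonneg
  have hpi := Real.pi_pos
  have hT0 : 0 < T := by linarith
  have key := h T H F hT hH1 hH hF n (rz p0 Y z * EI) h1 h2 h3 h4 h5 h6 B hBm hBT
  rw [cross_decouple hn hEI, diag_decouple hn hEI] at key
  refine key.trans ?_
  have hSR := SR_nonneg (p0 := p0) (Y := Y) (z := z)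
  have hlog : 0 ≤ Real.log T := Real.log_nonneg hT1
  have a1 : SR p0 Y z * (W * S * (1 - η)) ≤ 2 * (SR p0 Y z * BK (Kcs 1) n (EI * n))
      - SR p0 Y z * BK K1 (EI * n) (EI * n) := by
    have := mul_le_mul_of_nonneg_left hE1 hSR
    refine this.trans (le_of_eq ?_)
    ring
  have a2 : (1 / 2 - ε) * Real.log T * (S * (1 - η)) ≤ SR p0 Y z * (W * S * (1 - η)) := by
    have h7 : 0 ≤ S * (1 - η) := mul_nonneg hS (by linarith)
    have := mul_le_mul_of_nonneg_right hW h7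
    refine this.trans (le_of_eq ?_)
    ring
  have a3 : 2 * Real.pi * (K.m2 / T) * ((1 / 2 - ε) * Real.log T * (S * (1 - η)))
      ≤ 2 * Real.pi * (K.m2 / T) * (2 * (SR p0 Y z * BK (Kcs 1) n (EI * n))
      - SR p0 Y z * BK K1 (EI * n) (EI * n)) :=
    mul_le_mul_of_nonneg_left (a2.trans a1) (by positivity)
  have a4 : 1 / T * (Real.pi * K.m2 * (Real.log T * S) + Er)
      - 2 * Real.pi * (K.m2 / T) * ((1 / 2 - ε) * Real.log T * (S * (1 - η)))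
      ≤ Real.pi * K.m2 / T * (S * Real.log T * (2 * ε + η)) + Er / T := by
    have e : 1 / T * (Real.pi * K.m2 * (Real.log T * S) + Er)
        - 2 * Real.pi * (K.m2 / T) * ((1 / 2 - ε) * Real.log T * (S * (1 - η)))
        = Real.pi * K.m2 / T * (S * Real.log T * (2 * ε + η)) + Er / T
          - 2 * (Real.pi * K.m2 / T * (S * Real.log T * (ε * η))) := by ring
    rw [e]
    have : 0 ≤ Real.pi * K.m2 / T * (S * Real.log T * (ε * η)) := by positivity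
    linarith
  linarith

end Pool.Agent.Lib.MP_f9aece_nt_h85
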