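import Mathlib
import Pool.Agent.Lib.MP_f9aece_nt_h85.BadForms
import Pool.Agent.Lib.MP_f9aece_nt_h85.BadSet
import Pool.Agent.Lib.MP_f9aece_nt_h40.FormsTwo

/-!
The total contribution of the bad set in the lower bound near `β = 2`.
-/

set_option autoImplicit false

namespace Pool.Agent.Lib.MP_f9aece_nt_h85

open MeasureTheory Set Filter Topology Complex
open Pool.Agent.Lib.MP_f9aece_nt
open Pool.Agent.Lib.MP_f9aece_nt_h97
open Pool.Agent.Lib.MP_f9aece_nt_h97.Ker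
open Pool.Agent.Lib.MP_f9aece_nt_h5
open Pool.Agent.Lib.MP_f9aece_nt_h40

lemma one_le_SR {p0 : ℕ} {Y z : ℝ} (hz : 1 ≤ z) : 1 ≤ SR p0 Y z := by
  have h1 : 1 ∈ rset p0 Y z := by
    rw [mem_rset]
    exact ⟨⟨le_rfl, Nat.le_floor (by simpa using hz)⟩, one_mem_Smo _⟩
  have h2 := Finset.single_le_sum (f := fun n : ℕ => ((n : ℝ))⁻¹) (s := rset p0 Y z)
    (fun n _ => by positivity) h1
  unfold SR
  simpa using h2

/-- separated form of the energy of `zeta * a` -/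
theorem energy_a_sep (K : Ker) {ε : ℝ} (hε : 0 < ε) (hε2 : ε < 1 / 2) :
    ∃ C T0 : ℝ, 0 ≤ C ∧ 1 ≤ T0 ∧ ∀ A Y : ℝ, 0 ≤ A → 0 < Y → T0 ≤ Real.exp (A * Y) →
    ∀ (m p0 J : ℕ) (α E2 EL : ℝ), |α| ≤ 1 →
    Real.exp (8 * m * Y) ≤ Real.exp (A * Y) ^ (1 / 2 - ε) →
    |BK K2 (DD m p0 (-α) Y J) (DD m p0 (-α) Y J)| ≤ E2 →
    |BK KL (DD m p0 (-α) Y J) (DD m p0 (-α) Y J)| ≤ EL →
    Real.pi * ∫ x in Ioi (0 : ℝ), QQ (K.phi (Real.exp (A * Y))) (DD m p0 (-α) Y J) x ^ 2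
      ≤ 1 / Real.exp (A * Y) * (Real.pi * K.m2 * (A * Y * E2 + EL) + C * E2
        + C * Real.exp (6 * J + 16 * m * Y - ε / 8 * (A * Y))) := by
  obtain ⟨C, T0, hC, hT0, h⟩ := MP_f9aece_nt_h22.long_energy K hε hε2
  have hm2 := K.m2_nonneg
  have hpi := Real.pi_pos
  refine ⟨Real.pi * C, T0, by positivity, hT0, ?_⟩
  intro A Y hA hY hT m p0 J α E2 EL hα hlen h2 hL
  have hmY : 0 ≤ (m : ℝ) * Y := by positivity
  have hbd : Bd (DD m p0 (-α) Y J) (Real.exp (A * Y) ^ (1 / 2 - ε)) (Real.exp (3 * J + 8 * m * Y)) :=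
    (bd_a hY m p0 J hα (z := 1) le_rfl).mono (by rwa [one_mul]) le_rfl
  obtain ⟨-, key⟩ := h _ hT _ _ (Real.exp_pos _).le hbd.2 hbd.1
  have hAY0 : 0 ≤ A * Y := by positivity
  rw [Real.log_exp] at key
  set S := BK K2 (DD m p0 (-α) Y J) (DD m p0 (-α) Y J) with hS
  set G := BK KL (DD m p0 (-α) Y J) (DD m p0 (-α) Y J) with hG
  have c0 : C * Real.exp (3 * J + 8 * m * Y) ^ 2 * Real.exp (A * Y) ^ (-(ε / 8))
      = C * Real.exp (6 * J + 16 * m * Y - ε / 8 * (A * Y)) := by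
    rw [mul_assoc, exp_rpow_err]
    congr 3
    ring
  rw [c0] at key
  set Z := C * Real.exp (6 * J + 16 * m * Y - ε / 8 * (A * Y)) with hZ
  have a1 : A * Y * S - G ≤ A * Y * E2 + EL := by
    have b1 : A * Y * S ≤ A * Y * E2 := by gcongr; exact (le_abs_self _).trans h2
    have b2 := neg_abs_le G
    linarith
  calc Real.pi * ∫ x in Ioi (0 : ℝ), QQ (K.phi (Real.exp (A * Y))) (DD m p0 (-α) Y J) x ^ 2
      ≤ Real.pi * (1 / Real.exp (A * Y) * (K.m2 * (A * Y * S - G) + C * |S| + Z)) := by gcongr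
    _ ≤ Real.pi * (1 / Real.exp (A * Y) * (K.m2 * (A * Y * E2 + EL) + C * E2 + Z)) := by gcongr
    _ = _ := by rw [hZ]; ring

/-- the energy of `a * c` on the bad set, in terms of the unit `SR * exp ((1-a)^2 V) / T` -/
theorem bad_total (K : Ker) {ε0 : ℝ} (hε0 : 0 < ε0) (hε02 : ε0 < 1 / 2) :
    ∃ C T0 : ℝ, 0 ≤ C ∧ 1 ≤ T0 ∧ ∀ A Y : ℝ, 0 ≤ A → 0 < Y → T0 ≤ Real.exp (A * Y) →
    ∀ (m p0 J : ℕ) (a z CF ε c Kz W : ℝ), FT CF ε m p0 a Y J → 0 ≤ a → a ≤ 1 → ε ≤ 1 →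
    1 ≤ m → 0 ≤ CF → 1 ≤ z → z * Real.exp (8 * m * Y) ≤ Real.exp (A * Y) ^ (1 / 2 - ε0) → 0 < W →
    1 + Y ≤ c * Real.exp (∑ j ∈ Finset.range J, VV (sc Y p0 j)) → SR p0 Y z ≤ Kz →
    6 * J + 16 * m * Y ≤ ε0 / 8 * (A * Y) →
    IntegrableOn (fun t : ℝ => (‖ev t (DD m p0 (-a) Y J * (rz p0 Y z * DD m p0 1 Y J))‖
      * wgt K (Real.exp (A * Y)) t) ^ 2) (Icc 0 (Real.exp (A * Y))) ∧
    ∫ t in Icc 0 (Real.exp (A * Y)) \ GG (Real.exp (A * Y)) W (DD m p0 (-1) Y J) J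
        (fun j => PP (sc Y p0 j)) (fun j => (Mm m j : ℝ) / 10),
      (‖ev t (DD m p0 (-a) Y J * (rz p0 Y z * DD m p0 1 Y J))‖ * wgt K (Real.exp (A * Y)) t) ^ 2
      ≤ ((W ^ 2)⁻¹ * (C * (Kz ^ 2 * (3 * (1 + A) * c + CF * c) + 1)) + Real.pi * K.m2 * ε)
        * (SR p0 Y z * Real.exp ((1 - a) ^ 2 * ∑ j ∈ Finset.range J, VV (sc Y p0 j))
          / Real.exp (A * Y)) := by
  obtain ⟨C, T0, hC, hT0, h⟩ := energy_acd K hε0 hε02
  have hm2 := K.m2_nonneg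
  have hpi := Real.pi_pos
  have hL := K.hL
  refine ⟨C, max T0 ((4 * K.L + 1) ^ 2), hC, hT0.trans (le_max_left _ _), ?_⟩
  intro A Y hA hY hTT m p0 J a z CF ε c Kz W hFT ha0 ha1 hε1 hm hCF hz hlen hW hc hKz hJ
  have hT := (le_max_left T0 _).trans hTT
  have hT' := (le_max_right T0 _).trans hTT
  set T := Real.exp (A * Y) with hTdef
  set V := ∑ j ∈ Finset.range J, VV (sc Y p0 j) with hV
  have hV0 : 0 ≤ V := Finset.sum_nonneg fun j _ => VV_nonneg _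
  have hT1 : 1 ≤ T := hT0.trans hT
  have hTp : 0 < T := by linarith
  have hT2 : 2 * K.L ≤ T := by nlinarith
  have hα : |a| ≤ 1 := by rw [abs_of_nonneg ha0]; exact ha1
  set H := z * Real.exp (8 * m * Y) with hH
  have hmY : 0 ≤ (m : ℝ) * Y := by positivity
  have hH1 : 1 ≤ H := by
    have := Real.one_le_exp (show 0 ≤ 8 * (m : ℝ) * Y by positivity)
    nlinarith
  have hHT : H ≤ Real.sqrt T := by
    refine hlen.trans ?_
    rw [Real.sqrt_eq_rpow]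
    exact Real.rpow_le_rpow_of_exponent_le hT1 (by linarith)
  have hTH : 4 * K.L * H < T := by
    have h1 : 4 * K.L + 1 ≤ Real.sqrt T := Real.le_sqrt_of_sq_le hT'
    have h2 : Real.sqrt T * Real.sqrt T = T := Real.mul_self_sqrt hTp.le
    have h3 : 0 < Real.sqrt T := Real.sqrt_pos.mpr hTp
    calc 4 * K.L * H ≤ 4 * K.L * Real.sqrt T := by gcongr
      _ < Real.sqrt T * Real.sqrt T := by
          apply mul_lt_mul_of_pos_right _ h3
          linarith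
      _ = T := h2
  have hR : ∀ j < J, 0 < (Mm m j : ℝ) / 10 := by
    intro j _
    have : 0 < Mm m j := by unfold Mm; positivity
    positivity
  have hbad := bad_set (K := K) (d := DD m p0 (-1) Y J) (P := fun j => PP (sc Y p0 j))
    (R := fun j => (Mm m j : ℝ) / 10) (M := Mm m) hT2 hH1 hTH hW hR
    (bd_ac hY m p0 J hα hz).1 (fun n hn => ((bd_acd hY m p0 J hα hz).1 n hn).1)
    (fun j _ n hn => (bd_acP hY m p0 J hα hz j).1 n hn)
  refine ⟨hbad.1, hbad.2.trans ?_⟩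
  have hSR0 := SR_nonneg (p0 := p0) (Y := Y) (z := z)
  have hSR1 := one_le_SR (p0 := p0) (Y := Y) hz
  have hKz0 : 0 ≤ Kz := hSR0.trans hKz
  have hen := h A Y hA hY hT m p0 J a z _ _ hα hz hlen hFT.k2 hFT.kl
  rw [← hTdef] at hen
  have hexpV := Real.exp_pos V
  have hc0 : 0 ≤ c := by
    by_contra hc1
    push Not at hc1
    have : c * Real.exp V < 0 := mul_neg_of_neg_of_pos hc1 hexpV
    linarith
  set Ek := Real.exp ((1 - a) ^ 2 * V) with hEk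
  have hEk1 : 1 ≤ Ek := Real.one_le_exp (by positivity)
  have hEe : Real.exp (((1 - a) ^ 2 - 1) * V) * Real.exp V = Ek := by
    rw [hEk, ← Real.exp_add]; congr 1; ring
  have hE1 : Real.exp (((1 - a) ^ 2 - 1) * V + ε) ≤ 3 * Real.exp (((1 - a) ^ 2 - 1) * V) := by
    rw [Real.exp_add, mul_comm]
    gcongr
    calc Real.exp ε ≤ Real.exp 1 := Real.exp_le_exp.mpr hε1
      _ ≤ 3 := by linarith [Real.exp_one_lt_d9]
  -- first term
  have t1 : (W ^ 2)⁻¹ * (Real.pi * ∫ x in Ioi (0 : ℝ), QQ (K.phi T)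
        (DD m p0 (-a) Y J * (rz p0 Y z * DD m p0 1 Y J) * DD m p0 (-1) Y J) x ^ 2)
      ≤ (W ^ 2)⁻¹ * (C * (Kz ^ 2 * (3 * (1 + A) * c + CF * c) + 1)) * (SR p0 Y z * Ek / T) := by
    refine le_trans (mul_le_mul_of_nonneg_left (hen.trans ?_) (by positivity))
      (le_of_eq (mul_assoc _ _ _).symm)
    have b1 : (1 + A) * (1 + Y) * Real.exp (((1 - a) ^ 2 - 1) * V + ε)
        + CF * (1 + Y) * Real.exp (((1 - a) ^ 2 - 1) * V)
        ≤ (3 * (1 + A) * c + CF * c) * Ek := by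
      calc (1 + A) * (1 + Y) * Real.exp (((1 - a) ^ 2 - 1) * V + ε)
          + CF * (1 + Y) * Real.exp (((1 - a) ^ 2 - 1) * V)
          ≤ (1 + A) * (c * Real.exp V) * (3 * Real.exp (((1 - a) ^ 2 - 1) * V))
            + CF * (c * Real.exp V) * Real.exp (((1 - a) ^ 2 - 1) * V) := by
            gcongr
        _ = (3 * (1 + A) * c + CF * c) * (Real.exp (((1 - a) ^ 2 - 1) * V) * Real.exp V) := by ring
        _ = _ := by rw [hEe]
    have b2 : Real.exp (6 * J + 16 * m * Y - ε0 / 8 * (A * Y)) ≤ SR p0 Y z * Ek := by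
      have h1 : Real.exp (6 * J + 16 * m * Y - ε0 / 8 * (A * Y)) ≤ 1 := by
        rw [Real.exp_le_one_iff]; linarith
      have h2 : 1 ≤ SR p0 Y z * Ek := by nlinarith
      exact h1.trans h2
    have b3 : SR p0 Y z ^ 3 ≤ Kz ^ 2 * SR p0 Y z := by
      calc SR p0 Y z ^ 3 = SR p0 Y z ^ 2 * SR p0 Y z := by ring
        _ ≤ _ := by gcongr
    have hB : 0 ≤ (3 * (1 + A) * c + CF * c) * Ek := by positivity
    calc 1 / T * (C * SR p0 Y z ^ 3 * ((1 + A) * (1 + Y) * Real.exp (((1 - a) ^ 2 - 1) * V + ε)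
          + CF * (1 + Y) * Real.exp (((1 - a) ^ 2 - 1) * V))
          + C * Real.exp (6 * J + 16 * m * Y - ε0 / 8 * (A * Y)))
        ≤ 1 / T * (C * SR p0 Y z ^ 3 * ((3 * (1 + A) * c + CF * c) * Ek)
          + C * (SR p0 Y z * Ek)) := by gcongr
      _ ≤ 1 / T * (C * (Kz ^ 2 * SR p0 Y z) * ((3 * (1 + A) * c + CF * c) * Ek)
          + C * (SR p0 Y z * Ek)) := by gcongr
      _ = _ := by ring
  -- second term
  have t2 : ∑ j ∈ Finset.range J, ((fun j => (Mm m j : ℝ) / 10) j ^ (2 * Mm m j))⁻¹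
        * (Real.pi * K.m2 / T
          * BK K1 (DD m p0 (-a) Y J * (rz p0 Y z * DD m p0 1 Y J)
              * (fun j => PP (sc Y p0 j)) j ^ Mm m j)
            (DD m p0 (-a) Y J * (rz p0 Y z * DD m p0 1 Y J)
              * (fun j => PP (sc Y p0 j)) j ^ Mm m j))
      ≤ Real.pi * K.m2 * ε * (SR p0 Y z * Ek / T) := by
    have e1 : ∀ j ∈ Finset.range J, ((fun j => (Mm m j : ℝ) / 10) j ^ (2 * Mm m j))⁻¹
        * (Real.pi * K.m2 / T
          * BK K1 (DD m p0 (-a) Y J * (rz p0 Y z * DD m p0 1 Y J)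
              * (fun j => PP (sc Y p0 j)) j ^ Mm m j)
            (DD m p0 (-a) Y J * (rz p0 Y z * DD m p0 1 Y J)
              * (fun j => PP (sc Y p0 j)) j ^ Mm m j))
        = Real.pi * K.m2 / T * SR p0 Y z *
          (BK (K1s 1) (DD m p0 1 Y J * DD m p0 (-a) Y J * PP (sc Y p0 j) ^ Mm m j)
            (DD m p0 1 Y J * DD m p0 (-a) Y J * PP (sc Y p0 j) ^ Mm m j)
            / ((Mm m j : ℝ) / 10) ^ (2 * Mm m j)) := by
      intro j hj
      have e : DD m p0 (-a) Y J * (rz p0 Y z * DD m p0 1 Y J) * PP (sc Y p0 j) ^ Mm m j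
          = rz p0 Y z * (DD m p0 1 Y J * DD m p0 (-a) Y J * PP (sc Y p0 j) ^ Mm m j) := by ring
      have hsup : Sup (Smo (Pst p0 Y : Set ℕ))
          (DD m p0 1 Y J * DD m p0 (-a) Y J * PP (sc Y p0 j) ^ Mm m j) := by
        refine ((sup_DD' m 1 J).mul (sup_DD' m (-a) J) fun x hx y hy => mul_mem_Smo hx hy).mul
          (B := Smo (Pst p0 Y : Set ℕ)) ?_ fun x hx y hy => mul_mem_Smo hx hy
        have h1 : Sup (Smo (sc Y p0 j : Set ℕ)) (PP (sc Y p0 j) ^ Mm m j) :=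
          sup_of_cone ((cone_PP_pow (prime_sc j) (Mm m j)).mono fun _ hn => hn.1)
        refine h1.mono (Smo_mono ?_)
        intro p hp
        exact sc_subset_Pst (Y := Y) (p0 := p0) J (Set.mem_iUnion₂.mpr ⟨j, hj, hp⟩)
      simp only
      rw [e, ← K1s_one, decouple (mk_K1s le_rfl) sup_rz sup_rz hsup hsup, K1s_one, BK_K1_rz]
      field_simp
    rw [Finset.sum_congr rfl e1, ← Finset.mul_sum]
    calc Real.pi * K.m2 / T * SR p0 Y z * _
        ≤ Real.pi * K.m2 / T * SR p0 Y z * (ε * Ek) := by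
          refine mul_le_mul_of_nonneg_left hFT.large (by positivity)
      _ = _ := by ring
  calc _ ≤ _ := add_le_add t1 t2
    _ = _ := by ring

end Pool.Agent.Lib.MP_f9aece_nt_h85
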